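import Pool.Agent.H92Berg.Moment

set_option autoImplicit false
open MeasureTheory

namespace Pool.Agent.H92Berg

/-- the open regular `N`-gon whose vertices are the `N`-th roots of unity -/
def G (N : ℕ) : Set ℂ := interior (convexHull ℝ {z : ℂ | z ^ N = 1})

noncomputable def Lm (ω : ℂ) : ℂ →L[ℝ] ℂ :=
  Complex.reCLM.smulRight (1 : ℂ) + Complex.imCLM.smulRight ω

theorem Lm_apply (ω u : ℂ) : Lm ω u = (u.re : ℂ) + u.im * ω := by
  simp [Lm]

/-- the closed triangle `0, 1, ω` -/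
def C0 (ω : ℂ) : Set ℂ := {z | ∃ p ∈ Sx, z = (p.1 : ℂ) + p.2 * ω}

theorem C0_compact (ω : ℂ) : IsCompact (C0 ω) := by
  have h : C0 ω = (fun p : ℝ × ℝ => (p.1 : ℂ) + p.2 * ω) '' Sx := by
    ext z
    constructor
    · rintro ⟨p, hp, rfl⟩; exact ⟨p, hp, rfl⟩
    · rintro ⟨p, hp, rfl⟩; exact ⟨p, hp, rfl⟩
  rw [h]
  exact Sx_compact.image (by fun_prop)

theorem Lm_inj (ω : ℂ) (hω : 0 < ω.im) : Function.Injective (Lm ω) := by
  intro u v huv
  rw [Lm_apply, Lm_apply] at huv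
  have h1 := congrArg Complex.im huv
  have h2 := congrArg Complex.re huv
  simp at h1 h2
  have h3 : u.im = v.im := h1.resolve_right hω.ne'
  rw [h3] at h2
  apply Complex.ext
  · linarith
  · exact h3

theorem cov (ω : ℂ) (hω : 0 < ω.im) : ∃ κ : ℝ, 0 < κ ∧ ∀ f : ℂ → ℂ,
    ∫ z in C0 ω, f z = κ * ∫ p in Sx, f ((p.1 : ℂ) + p.2 * ω) := by
  refine ⟨|(Lm ω).det|, ?_, ?_⟩
  · rw [abs_pos]
    intro h
    have h1 : LinearMap.det ((Lm ω : ℂ →L[ℝ] ℂ) : ℂ →ₗ[ℝ] ℂ) = 0 := h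
    rw [LinearMap.det_eq_zero_iff_ker_ne_bot] at h1
    exact h1 (LinearMap.ker_eq_bot.2 (Lm_inj ω hω))
  · intro f
    have himg : C0 ω = (Lm ω) '' (Complex.measurableEquivRealProd ⁻¹' Sx) := by
      ext z
      constructor
      · rintro ⟨p, hp, rfl⟩
        refine ⟨⟨p.1, p.2⟩, ?_, ?_⟩
        · show Complex.measurableEquivRealProd ⟨p.1, p.2⟩ ∈ Sx
          exact hp
        · rw [Lm_apply]
      · rintro ⟨u, hu, rfl⟩
        exact ⟨(u.re, u.im), hu, by rw [Lm_apply]⟩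
    have hmeas : MeasurableSet (Complex.measurableEquivRealProd ⁻¹' Sx) :=
      Complex.measurableEquivRealProd.measurable Sx_closed.measurableSet
    rw [himg, integral_image_eq_integral_abs_det_fderiv_smul volume hmeas
      (f' := fun _ => Lm ω) (fun x _ => (Lm ω).hasFDerivWithinAt) ((Lm_inj ω hω).injOn)]
    have h2 := Complex.volume_preserving_equiv_real_prod.setIntegral_preimage_emb
      Complex.measurableEquivRealProd.measurableEmbedding
      (fun p : ℝ × ℝ => f ((p.1 : ℂ) + p.2 * ω)) Sx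
    rw [← h2, ← integral_const_mul]
    apply integral_congr_ae
    apply Filter.Eventually.of_forall
    intro u
    simp only []
    rw [Lm_apply, Complex.real_smul]
    rfl

/-- coordinates with respect to `1, ω` -/
noncomputable def yc (ω : ℂ) : ℂ →ₗ[ℝ] ℝ := (ω.im)⁻¹ • Complex.imLm
noncomputable def xc (ω : ℂ) : ℂ →ₗ[ℝ] ℝ := Complex.reLm - ω.re • yc ω

theorem coord_unique (ω : ℂ) (hω : 0 < ω.im) (a b : ℝ) :
    xc ω ((a : ℂ) + b * ω) = a ∧ yc ω ((a : ℂ) + b * ω) = b := by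
  have h1 : yc ω ((a : ℂ) + b * ω) = b := by
    simp [yc]
    field_simp
  refine ⟨?_, h1⟩
  simp only [xc, LinearMap.sub_apply, LinearMap.smul_apply, h1]
  simp
  ring

theorem coord_eq (ω : ℂ) (hω : 0 < ω.im) (z : ℂ) : z = (xc ω z : ℂ) + (yc ω z : ℂ) * ω := by
  have h := hω.ne'
  apply Complex.ext
  · simp [xc, yc]
    ring
  · simp [yc]
    field_simp

theorem mem_C0 (ω : ℂ) (hω : 0 < ω.im) (z : ℂ) :
    z ∈ C0 ω ↔ 0 ≤ xc ω z ∧ 0 ≤ yc ω z ∧ xc ω z + yc ω z ≤ 1 := by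
  constructor
  · rintro ⟨p, hp, rfl⟩
    rw [(coord_unique ω hω p.1 p.2).1, (coord_unique ω hω p.1 p.2).2]
    exact hp
  · intro h
    exact ⟨(xc ω z, yc ω z), h, coord_eq ω hω z⟩

theorem coord_rot (ω ω' : ℂ) (ε : ℝ) (hω : 0 < ω.im) (hmul : ω * ω' = 1)
    (hconj : ω' = -ε - ω) (z : ℂ) :
    xc ω (ω' * z) = yc ω z - ε * xc ω z ∧ yc ω (ω' * z) = - xc ω z := by
  have h1 : ω' * z = ((yc ω z - ε * xc ω z : ℝ) : ℂ) + ((- xc ω z : ℝ) : ℂ) * ω := by
    conv_lhs => rw [coord_eq ω hω z]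
    push_cast
    linear_combination (yc ω z : ℂ) * hmul + (xc ω z : ℂ) * hconj
  rw [h1]
  exact coord_unique ω hω _ _

/-- the rotated triangles -/
def Cl (ω ω' : ℂ) (l : ℕ) : Set ℂ := {z | ω' ^ l * z ∈ C0 ω}

theorem Cl_zero (ω ω' : ℂ) : Cl ω ω' 0 = C0 ω := by
  ext z; simp [Cl]

theorem Cl_compact (ω ω' : ℂ) (hmul : ω * ω' = 1) (l : ℕ) : IsCompact (Cl ω ω' l) := by
  have h : Cl ω ω' l = (fun z => ω ^ l * z) '' C0 ω := by
    ext z
    constructor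
    · intro hz
      refine ⟨ω' ^ l * z, hz, ?_⟩
      simp only []
      rw [← mul_assoc, ← mul_pow, hmul, one_pow, one_mul]
    · rintro ⟨w, hw, rfl⟩
      show ω' ^ l * (ω ^ l * w) ∈ C0 ω
      rw [← mul_assoc, ← mul_pow, mul_comm ω' ω, hmul, one_pow, one_mul]
      exact hw
  rw [h]
  exact (C0_compact ω).image (by fun_prop)

theorem int_Cl (ω ω' : ℂ) (hmul : ω * ω' = 1) (hnorm : ‖ω'‖ = 1) (l : ℕ) (f : ℂ → ℂ) :
    ∫ z in Cl ω ω' l, f z = ∫ z in C0 ω, f (ω ^ l * z) := by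
  have hc : ‖ω' ^ l‖ = 1 := by rw [norm_pow, hnorm, one_pow]
  set c : Circle := ⟨ω' ^ l, mem_sphere_zero_iff_norm.2 hc⟩ with hcdef
  have hmp := (rotation c).measurePreserving
  have h1 := hmp.setIntegral_preimage_emb (rotation c).toHomeomorph.measurableEmbedding
    (fun w => f (ω ^ l * w)) (C0 ω)
  rw [← h1]
  have h2 : (rotation c) ⁻¹' (C0 ω) = Cl ω ω' l := by
    ext z
    show rotation c z ∈ C0 ω ↔ z ∈ Cl ω ω' l
    rw [rotation_apply]
    rfl
  rw [h2]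
  apply integral_congr_ae
  apply Filter.Eventually.of_forall
  intro z
  simp only []
  rw [rotation_apply]
  show f z = f (ω ^ l * (ω' ^ l * z))
  rw [← mul_assoc, ← mul_pow, hmul, one_pow, one_mul]

end Pool.Agent.H92Berg
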