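import Pool.Agent.H92Berg.Cheb

set_option autoImplicit false
open Polynomial

namespace Pool.Agent.H92Berg

theorem Z_zero_of (f : ℝ[X]) (hf : f ≠ 0) (h : ∀ x ∈ Set.Ioo (0 : ℝ) 1, f.eval x ≠ 0) :
    Z f = 0 := by
  unfold Z
  rw [Multiset.card_eq_zero, Multiset.filter_eq_nil]
  intro x hx hx2
  rw [mem_roots hf] at hx
  exact h x hx2 hx

theorem ne_zero_of_eval {f : ℝ[X]} {x : ℝ} (h : f.eval x ≠ 0) : f ≠ 0 := by
  rintro rfl; simp at h

theorem base4 (k : ℕ) (hk : k < 4) (x : ℝ) (hx : x ∈ Set.Ioo (0 : ℝ) 1) :
    0 < (B 0 (k + 1)).eval x := by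
  obtain ⟨h0, h1⟩ := hx
  have hA : ∀ M, (A 0 (M + 1)).eval x = (A 0 M).eval x - x * (B 0 M).eval x := by
    intro M; rw [A_succ]; simp
  have hB : ∀ M, (B 0 (M + 1)).eval x = (B 0 M).eval x + x * (A 0 M).eval x := by
    intro M; rw [B_succ]; simp
  have hA0 : (A 0 0).eval x = 1 := by rw [A_zero]; simp
  have hB0 : (B 0 0).eval x = 0 := by rw [B_zero]; simp
  have hx2 : x ^ 2 < 1 := by nlinarith
  interval_cases k
  · rw [hB, hA0, hB0]; linarith
  · rw [hB, hB, hA, hA0, hB0]; nlinarith
  · simp only [hB, hA, hA0, hB0]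
    have : 0 < x * (1 - x ^ 2) := by apply mul_pos h0; linarith
    nlinarith
  · simp only [hB, hA, hA0, hB0]
    have : 0 < x * (1 - x ^ 2) := by apply mul_pos h0; linarith
    nlinarith

theorem base3 (k : ℕ) (hk : k < 3) (x : ℝ) (hx : x ∈ Set.Ioo (0 : ℝ) 1) :
    0 < (B 1 (k + 1)).eval x := by
  obtain ⟨h0, h1⟩ := hx
  have hA : ∀ M, (A 1 (M + 1)).eval x = (A 1 M).eval x - x * (B 1 M).eval x := by
    intro M; rw [A_succ]; simp
  have hB : ∀ M, (B 1 (M + 1)).eval x = (B 1 M).eval x + x * (A 1 M).eval x
      - x * (B 1 M).eval x := by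
    intro M; rw [B_succ]; simp
  have hA0 : (A 1 0).eval x = 1 := by rw [A_zero]; simp
  have hB0 : (B 1 0).eval x = 0 := by rw [B_zero]; simp
  have hx2 : 0 < x * (1 - x) := by apply mul_pos h0; linarith
  interval_cases k
  · rw [hB, hA0, hB0]; linarith
  · rw [hB, hB, hA, hA0, hB0]; nlinarith
  · simp only [hB, hA, hA0, hB0]
    nlinarith

theorem deriv_W (ε : ℝ) (N k n : ℕ) (c : ℕ → ℝ) :
    derivative (W ε N k n c) = ∑ a ∈ Finset.range n, C (c a) * derivative (B ε (a * N + k + 1)) := by
  unfold W
  rw [derivative_sum]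
  apply Finset.sum_congr rfl
  intro a _
  rw [derivative_C_mul]

theorem deriv_W2 (ε : ℝ) (N k n : ℕ) (c : ℕ → ℝ) :
    derivative (derivative (W ε N k n c)) =
      ∑ a ∈ Finset.range n, C (c a) * derivative (derivative (B ε (a * N + k + 1))) := by
  rw [deriv_W, derivative_sum]
  apply Finset.sum_congr rfl
  intro a _
  rw [derivative_C_mul]

theorem deriv_W3 (ε : ℝ) (N k n : ℕ) (c : ℕ → ℝ) :
    derivative (derivative (derivative (W ε N k n c))) =
      ∑ a ∈ Finset.range n,
        C (c a) * derivative (derivative (derivative (B ε (a * N + k + 1)))) := by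
  rw [deriv_W2, derivative_sum]
  apply Finset.sum_congr rfl
  intro a _
  rw [derivative_C_mul]

theorem deriv_W4 (ε : ℝ) (N k n : ℕ) (c : ℕ → ℝ) :
    derivative (derivative (derivative (derivative (W ε N k n c)))) =
      ∑ a ∈ Finset.range n,
        C (c a) * derivative (derivative (derivative (derivative (B ε (a * N + k + 1))))) := by
  rw [deriv_W3, derivative_sum]
  apply Finset.sum_congr rfl
  intro a _
  rw [derivative_C_mul]

theorem W_single (ε : ℝ) (N k n : ℕ) (c : ℕ → ℝ) (h : ∀ a, 0 < a → a < n + 1 → c a = 0) :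
    W ε N k (n + 1) c = C (c 0) * B ε (k + 1) := by
  unfold W
  rw [Finset.sum_range_succ', Finset.sum_eq_zero]
  · simp
  · intro a ha
    rw [h (a + 1) (Nat.succ_pos a) (by have := Finset.mem_range.1 ha; omega)]
    simp

theorem cheb4 (k : ℕ) (hk : k < 4) (n : ℕ) : ∀ c : ℕ → ℝ, (∃ a < n, c a ≠ 0) →
    W 0 4 k n c ≠ 0 ∧ Z (W 0 4 k n c) + 1 ≤ n := by
  induction n with
  | zero => rintro c ⟨a, ha, _⟩; omega
  | succ n ih =>
    intro c hc
    by_cases hcase : ∃ a, 0 < a ∧ a < n + 1 ∧ c a ≠ 0
    · obtain ⟨a0, ha0, ha0n, hca0⟩ := hcase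
      set c' : ℕ → ℝ := fun a => c (a + 1) *
        ((((a + 1) * 4 + k + 1) * ((a + 1) * 4 + k + 1 - 1) * ((a + 1) * 4 + k + 1 - 2) *
          ((a + 1) * 4 + k + 1 - 3) : ℕ) : ℝ) with hc'
      have hD : derivative (derivative (derivative (derivative (W 0 4 k (n + 1) c)))) =
          W 0 4 k n c' := by
        rw [deriv_W4, Finset.sum_range_succ']
        unfold W
        have h0 : C (c 0) * derivative (derivative (derivative (derivative (B 0 (0 * 4 + k + 1)))))
            = 0 := by
          rw [dB0_4]
          have : 0 * 4 + k + 1 - 4 = 0 := by omega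
          rw [this, B_zero]; simp
        rw [h0, add_zero]
        apply Finset.sum_congr rfl
        intro a _
        rw [dB0_4, hc']
        have : (a + 1) * 4 + k + 1 - 4 = a * 4 + k + 1 := by omega
        rw [this]
        simp only [C_mul]
        ring
      have hne : ∃ a < n, c' a ≠ 0 := by
        refine ⟨a0 - 1, by omega, ?_⟩
        rw [hc']
        simp only []
        rw [Nat.sub_add_cancel ha0]
        apply mul_ne_zero hca0
        have hpos : 0 < (a0 * 4 + k + 1) * (a0 * 4 + k + 1 - 1) * (a0 * 4 + k + 1 - 2) *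
            (a0 * 4 + k + 1 - 3) := by
          apply Nat.mul_pos (Nat.mul_pos (Nat.mul_pos _ _) _) _ <;> omega
        exact_mod_cast hpos.ne'
      obtain ⟨h4, hZ⟩ := ih c' hne
      rw [← hD] at h4 hZ
      have hWne : W 0 4 k (n + 1) c ≠ 0 := by
        intro h
        rw [h] at h4
        simp at h4
      refine ⟨hWne, ?_⟩
      have hch := chain4 (W 0 4 k (n + 1) c) h4 ?_ ?_ ?_
      · omega
      · unfold W
        rw [eval_finsetSum]
        apply Finset.sum_eq_zero
        intro a _
        rw [eval_mul, B_zero_eval, mul_zero]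
      · rw [deriv_W2, eval_finsetSum]
        apply Finset.sum_eq_zero
        intro a _
        rw [dB0_2, eval_mul, eval_neg, eval_mul, B_zero_eval]; simp
      · interval_cases k
        · right; right; right
          rw [deriv_W3, eval_finsetSum]
          apply Finset.sum_eq_zero
          intro a _
          rw [dB0_3, eval_mul, eval_neg, eval_mul]
          rcases a with _ | a
          · simp
          · have : (a + 1) * 4 + 0 + 1 - 3 = 4 * a + 2 := by omega
            rw [this, A4_two]; simp
        · right; right; left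
          rw [deriv_W2, eval_finsetSum]
          apply Finset.sum_eq_zero
          intro a _
          rw [dB0_2, eval_mul, eval_neg, eval_mul]
          have : a * 4 + 1 + 1 - 2 = 4 * a := by omega
          rw [this, B4_one]; simp
        · right; left
          rw [deriv_W, eval_finsetSum]
          apply Finset.sum_eq_zero
          intro a _
          rw [derivB0, eval_mul, eval_mul]
          have : a * 4 + 2 + 1 - 1 = 4 * a + 2 := by omega
          rw [this, A4_two]; simp
        · left
          unfold W
          rw [eval_finsetSum]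
          apply Finset.sum_eq_zero
          intro a _
          rw [eval_mul]
          have : a * 4 + 3 + 1 = 4 * (a + 1) := by omega
          rw [this, B4_one]; simp
    · push Not at hcase
      have hzero : ∀ a, 0 < a → a < n + 1 → c a = 0 := hcase
      rw [W_single 0 4 k n c hzero]
      have hc0 : c 0 ≠ 0 := by
        obtain ⟨a, ha, hca⟩ := hc
        rcases Nat.eq_zero_or_pos a with h | h
        · rwa [h] at hca
        · exact absurd (hzero a h ha) hca
      have hev : ∀ x ∈ Set.Ioo (0 : ℝ) 1, (C (c 0) * B 0 (k + 1)).eval x ≠ 0 := by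
        intro x hx
        rw [eval_mul, eval_C]
        exact mul_ne_zero hc0 (base4 k hk x hx).ne'
      have hne := ne_zero_of_eval (hev (1 / 2) ⟨by norm_num, by norm_num⟩)
      refine ⟨hne, ?_⟩
      rw [Z_zero_of _ hne hev]; omega

theorem cheb3 (k : ℕ) (hk : k < 3) (n : ℕ) : ∀ c : ℕ → ℝ, (∃ a < n, c a ≠ 0) →
    W 1 3 k n c ≠ 0 ∧ Z (W 1 3 k n c) + 1 ≤ n := by
  induction n with
  | zero => rintro c ⟨a, ha, _⟩; omega
  | succ n ih =>
    intro c hc
    by_cases hcase : ∃ a, 0 < a ∧ a < n + 1 ∧ c a ≠ 0
    · obtain ⟨a0, ha0, ha0n, hca0⟩ := hcase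
      set c' : ℕ → ℝ := fun a => c (a + 1) *
        ((((a + 1) * 3 + k + 1) * ((a + 1) * 3 + k + 1 - 1) * ((a + 1) * 3 + k + 1 - 2) : ℕ) : ℝ)
        with hc'
      have hD : derivative (derivative (derivative (W 1 3 k (n + 1) c))) =
          W 1 3 k n c' := by
        rw [deriv_W3, Finset.sum_range_succ']
        unfold W
        have h0 : C (c 0) * derivative (derivative (derivative (B 1 (0 * 3 + k + 1))))
            = 0 := by
          rw [dB1_3]
          have : 0 * 3 + k + 1 - 3 = 0 := by omega
          rw [this, B_zero]; simp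
        rw [h0, add_zero]
        apply Finset.sum_congr rfl
        intro a _
        rw [dB1_3, hc']
        have : (a + 1) * 3 + k + 1 - 3 = a * 3 + k + 1 := by omega
        rw [this]
        simp only [C_mul]
        ring
      have hne : ∃ a < n, c' a ≠ 0 := by
        refine ⟨a0 - 1, by omega, ?_⟩
        rw [hc']
        simp only []
        rw [Nat.sub_add_cancel ha0]
        apply mul_ne_zero hca0
        have hpos : 0 < (a0 * 3 + k + 1) * (a0 * 3 + k + 1 - 1) * (a0 * 3 + k + 1 - 2) := by
          apply Nat.mul_pos (Nat.mul_pos _ _) _ <;> omega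
        exact_mod_cast hpos.ne'
      obtain ⟨h4, hZ⟩ := ih c' hne
      rw [← hD] at h4 hZ
      have hWne : W 1 3 k (n + 1) c ≠ 0 := by
        intro h
        rw [h] at h4
        simp at h4
      refine ⟨hWne, ?_⟩
      have hch := chain3 (W 1 3 k (n + 1) c) h4 ?_ ?_
      · omega
      · unfold W
        rw [eval_finsetSum]
        apply Finset.sum_eq_zero
        intro a _
        rw [eval_mul, B_zero_eval, mul_zero]
      · interval_cases k
        · right; right
          rw [deriv_W2, eval_finsetSum]
          apply Finset.sum_eq_zero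
          intro a _
          rw [dB1_2, eval_mul, eval_neg, eval_mul]
          rcases a with _ | a
          · simp
          · have : (a + 1) * 3 + 0 + 1 - 2 = 3 * a + 2 := by omega
            rw [this, A3_two]; simp
        · right; left
          rw [deriv_W, eval_finsetSum]
          apply Finset.sum_eq_zero
          intro a _
          rw [derivB1, eval_mul, eval_mul, eval_sub]
          have : a * 3 + 1 + 1 - 1 = 3 * a + 1 := by omega
          rw [this, AB3_one]; simp
        · left
          unfold W
          rw [eval_finsetSum]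
          apply Finset.sum_eq_zero
          intro a _
          rw [eval_mul]
          have : a * 3 + 2 + 1 = 3 * (a + 1) := by omega
          rw [this, B3_one]; simp
    · push Not at hcase
      have hzero : ∀ a, 0 < a → a < n + 1 → c a = 0 := hcase
      rw [W_single 1 3 k n c hzero]
      have hc0 : c 0 ≠ 0 := by
        obtain ⟨a, ha, hca⟩ := hc
        rcases Nat.eq_zero_or_pos a with h | h
        · rwa [h] at hca
        · exact absurd (hzero a h ha) hca
      have hev : ∀ x ∈ Set.Ioo (0 : ℝ) 1, (C (c 0) * B 1 (k + 1)).eval x ≠ 0 := by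
        intro x hx
        rw [eval_mul, eval_C]
        exact mul_ne_zero hc0 (base3 k hk x hx).ne'
      have hne := ne_zero_of_eval (hev (1 / 2) ⟨by norm_num, by norm_num⟩)
      refine ⟨hne, ?_⟩
      rw [Z_zero_of _ hne hev]; omega

end Pool.Agent.H92Berg
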