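import Pool.Agent.H92Berg.Zeros

set_option autoImplicit false
open Polynomial

namespace Pool.Agent.H92Berg

theorem Lf_lin (ε : ℝ) (N k : ℕ) (p q : ℝ[X]) (α β : ℝ) (a : ℕ) :
    Lf ε N k (C α * q + C β * p) a = α * Lf ε N k q a + β * Lf ε N k p a := by
  unfold Lf
  rw [← intervalIntegral.integral_const_mul, ← intervalIntegral.integral_const_mul,
    ← intervalIntegral.integral_add]
  · apply intervalIntegral.integral_congr
    intro t _
    simp only [eval_add, eval_mul, eval_C]
    ring
  · apply Continuous.intervalIntegrable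
    have h2 : Continuous (fun t : ℝ => q.eval (t ^ N)) := q.continuous.comp (continuous_pow N)
    have h3 : Continuous (fun t : ℝ => (B ε (a * N + k + 1)).eval (1 - t)) :=
      (B ε (a * N + k + 1)).continuous.comp (continuous_const.sub continuous_id)
    fun_prop
  · apply Continuous.intervalIntegrable
    have h2 : Continuous (fun t : ℝ => p.eval (t ^ N)) := p.continuous.comp (continuous_pow N)
    have h3 : Continuous (fun t : ℝ => (B ε (a * N + k + 1)).eval (1 - t)) :=
      (B ε (a * N + k + 1)).continuous.comp (continuous_const.sub continuous_id)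
    fun_prop

/-- the zero-counting property -/
def Many (ε : ℝ) (N k : ℕ) : Prop :=
  ∀ (q : ℝ[X]), q ≠ 0 → ∀ j : ℕ, (∀ a < j, Lf ε N k q a = 0) → j ≤ (oddRoots q).card

theorem oddRoots_sum_le (q : ℝ[X]) (_hq : q ≠ 0) (A : Finset ℝ) :
    ∑ x ∈ A, q.rootMultiplicity x ≤ q.natDegree := by
  classical
  have h1 : ∑ x ∈ A, q.rootMultiplicity x ≤ ∑ x ∈ A ∪ q.roots.toFinset, q.roots.count x := by
    simp only [count_roots]
    exact Finset.sum_le_sum_of_subset Finset.subset_union_left
  have h2 : ∑ x ∈ A ∪ q.roots.toFinset, q.roots.count x = Multiset.card q.roots := by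
    rw [← Multiset.toFinset_sum_count_eq]
    symm
    apply Finset.sum_subset Finset.subset_union_right
    intro x _ hx
    rw [Multiset.mem_toFinset] at hx
    exact Multiset.count_eq_zero.2 hx
  exact h1.trans (h2.le.trans (card_roots' q))

/-- If `q ≠ 0` has degree at most `j` and satisfies `j` orthogonality relations, then it has exactly
`j` roots, all simple and in `(0,1)`. -/
theorem simple_roots {ε : ℝ} {N k : ℕ} (HM : Many ε N k) (q : ℝ[X]) (hq : q ≠ 0) (j : ℕ)
    (hdeg : q.natDegree ≤ j) (hL : ∀ a < j, Lf ε N k q a = 0) :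
    q.natDegree = j ∧ (oddRoots q).card = j ∧ q.roots = (oddRoots q).val := by
  classical
  have h1 := HM q hq j hL
  have hle : (oddRoots q).val ≤ q.roots := by
    rw [Multiset.le_iff_subset (oddRoots q).nodup]
    intro x hx
    have := (mem_oddRoots q hq x).1 hx
    rw [mem_roots hq, ← rootMultiplicity_pos hq]
    exact this.2.pos
  have h2 := Multiset.card_le_card hle
  have h3 := card_roots' q
  have h4 : Multiset.card (oddRoots q).val = (oddRoots q).card := rfl
  refine ⟨by omega, by omega, ?_⟩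
  symm
  apply Multiset.eq_of_le_of_card_le hle
  omega

theorem exists_q (ε : ℝ) (N k : ℕ) (j : ℕ) :
    ∃ q : ℝ[X], q ≠ 0 ∧ q.natDegree ≤ j ∧ ∀ a < j, Lf ε N k q a = 0 := by
  let F : (degreeLT ℝ (j + 1)) →ₗ[ℝ] (Fin j → ℝ) :=
    { toFun := fun q a => Lf ε N k (q : ℝ[X]) a
      map_add' := by
        intro p q
        funext a
        have := Lf_lin ε N k (q : ℝ[X]) (p : ℝ[X]) 1 1 a
        simpa using this
      map_smul' := by
        intro m q
        funext a
        have := Lf_lin ε N k 0 (q : ℝ[X]) m 0 a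
        simp only [C_0, mul_zero, add_zero, zero_mul] at this
        rw [← smul_eq_C_mul] at this
        simpa using this }
  have hker : LinearMap.ker F ≠ ⊥ := by
    have hfin : Module.finrank ℝ (degreeLT ℝ (j + 1)) = j + 1 := by
      rw [(degreeLTEquiv ℝ (j + 1)).finrank_eq]; simp
    have : FiniteDimensional ℝ (degreeLT ℝ (j + 1)) :=
      Module.Finite.equiv (degreeLTEquiv ℝ (j + 1)).symm
    apply LinearMap.ker_ne_bot_of_finrank_lt
    rw [hfin, Module.finrank_fintype_fun_eq_card]
    simp
  obtain ⟨q, hq, hq0⟩ := Submodule.exists_mem_ne_zero_of_ne_bot hker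
  have hqne : (q : ℝ[X]) ≠ 0 := by
    intro h; exact hq0 (Subtype.ext h)
  refine ⟨q, hqne, ?_, ?_⟩
  · have h1 := mem_degreeLT.1 q.2
    rw [degree_eq_natDegree hqne] at h1
    have h2 : (q : ℝ[X]).natDegree < j + 1 := by exact_mod_cast h1
    omega
  · intro a ha
    have h1 : F q ⟨a, ha⟩ = 0 := by
      rw [LinearMap.mem_ker] at hq
      rw [hq]; rfl
    exact h1

/-- monic orthogonal polynomial -/
theorem exists_monic {ε : ℝ} {N k : ℕ} (HM : Many ε N k) (j : ℕ) :
    ∃ q : ℝ[X], q.Monic ∧ q.natDegree = j ∧ (∀ a < j, Lf ε N k q a = 0) ∧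
      (oddRoots q).card = j ∧ q.roots = (oddRoots q).val := by
  obtain ⟨q, hq, hdeg, hL⟩ := exists_q ε N k j
  have hlc : q.leadingCoeff ≠ 0 := leadingCoeff_ne_zero.2 hq
  set p : ℝ[X] := C (q.leadingCoeff)⁻¹ * q with hp
  have hp0 : p ≠ 0 := mul_ne_zero (C_ne_zero.2 (inv_ne_zero hlc)) hq
  have hmonic : p.Monic := by
    rw [hp, mul_comm]; exact monic_mul_leadingCoeff_inv hq
  have hLp : ∀ a < j, Lf ε N k p a = 0 := by
    intro a ha
    have := Lf_lin ε N k 0 q (q.leadingCoeff)⁻¹ 0 a
    rw [hL a ha] at this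
    simpa using this
  have hdegp : p.natDegree ≤ j := by
    rw [hp]
    exact (natDegree_C_mul_le _ _).trans hdeg
  obtain ⟨h1, h2, h3⟩ := simple_roots HM p hp0 j hdegp hLp
  exact ⟨p, hmonic, h1, hLp, h2, h3⟩

/-- Wronskian does not vanish -/
theorem wronskian_ne {ε : ℝ} {N k : ℕ} (HM : Many ε N k) (j : ℕ) (q p : ℝ[X])
    (hqd : q.natDegree = j) (hpd : p.natDegree = j + 1) (hq0 : q ≠ 0) (hp0 : p ≠ 0)
    (hqL : ∀ a < j, Lf ε N k q a = 0) (hpL : ∀ a < j + 1, Lf ε N k p a = 0)
    (hqr : q.roots = (oddRoots q).val) (x : ℝ) :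
    q.eval x * (derivative p).eval x - (derivative q).eval x * p.eval x ≠ 0 := by
  classical
  intro hW
  -- a combination with a double root
  have key : ∃ α β : ℝ, β ≠ 0 ∧ α * q.eval x + β * p.eval x = 0 ∧
      α * (derivative q).eval x + β * (derivative p).eval x = 0 := by
    by_cases hqx : q.eval x = 0
    · have hq'x : (derivative q).eval x ≠ 0 := by
        intro h
        have h1 : 1 < q.rootMultiplicity x :=
          (one_lt_rootMultiplicity_iff_isRoot hq0).2 ⟨hqx, h⟩
        have h2 : q.roots.count x ≤ 1 := by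
          rw [hqr]; exact Multiset.nodup_iff_count_le_one.1 (oddRoots q).nodup x
        rw [count_roots] at h2
        omega
      have hpx : p.eval x = 0 := by
        rw [hqx, zero_mul, zero_sub, neg_eq_zero] at hW
        exact (mul_eq_zero.1 hW).resolve_left hq'x
      exact ⟨-(derivative p).eval x, (derivative q).eval x, hq'x, by rw [hqx, hpx]; ring, by ring⟩
    · exact ⟨-p.eval x, q.eval x, hqx, by ring, by linear_combination hW⟩
  obtain ⟨α, β, hβ, h1, h2⟩ := key
  set f : ℝ[X] := C α * q + C β * p with hf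
  have hfcoeff : f.coeff (j + 1) = β * p.leadingCoeff := by
    rw [hf, coeff_add, coeff_C_mul, coeff_C_mul, coeff_eq_zero_of_natDegree_lt (by omega),
      leadingCoeff, hpd]
    ring
  have hf0 : f ≠ 0 := by
    intro h
    rw [h, coeff_zero] at hfcoeff
    exact mul_ne_zero hβ (leadingCoeff_ne_zero.2 hp0) hfcoeff.symm
  have hfdeg : f.natDegree ≤ j + 1 := by
    rw [hf]
    apply (natDegree_add_le _ _).trans
    apply max_le
    · exact (natDegree_C_mul_le _ _).trans (by omega)
    · exact (natDegree_C_mul_le _ _).trans (by omega)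
  have hfL : ∀ a < j, Lf ε N k f a = 0 := by
    intro a ha
    rw [hf, Lf_lin, hqL a ha, hpL a (by omega)]; ring
  have hcard := HM f hf0 j hfL
  have hmult : 1 < f.rootMultiplicity x := by
    rw [one_lt_rootMultiplicity_iff_isRoot hf0]
    constructor
    · rw [IsRoot, hf]; simp only [eval_add, eval_mul, eval_C]; exact h1
    · rw [IsRoot, hf, derivative_add, derivative_C_mul, derivative_C_mul]
      simp only [eval_add, eval_mul, eval_C]; exact h2
  have hone : ∀ y ∈ oddRoots f, 1 ≤ f.rootMultiplicity y := fun y hy =>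
    ((mem_oddRoots f hf0 y).1 hy).2.pos
  by_cases hx : x ∈ oddRoots f
  · have hodd := ((mem_oddRoots f hf0 x).1 hx).2
    have h3 : 3 ≤ f.rootMultiplicity x := by
      obtain ⟨m, hm⟩ := hodd; omega
    have h4 := oddRoots_sum_le f hf0 (oddRoots f)
    rw [← Finset.add_sum_erase _ _ hx] at h4
    have h5 : ((oddRoots f).erase x).card ≤ ∑ y ∈ (oddRoots f).erase x, f.rootMultiplicity y := by
      rw [Finset.card_eq_sum_ones]
      exact Finset.sum_le_sum fun y hy => hone y (Finset.mem_of_mem_erase hy)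
    rw [Finset.card_erase_of_mem hx] at h5
    omega
  · have h4 := oddRoots_sum_le f hf0 (insert x (oddRoots f))
    rw [Finset.sum_insert hx] at h4
    have h5 : (oddRoots f).card ≤ ∑ y ∈ oddRoots f, f.rootMultiplicity y := by
      rw [Finset.card_eq_sum_ones]
      exact Finset.sum_le_sum fun y hy => hone y hy
    omega

theorem root_between {q p : ℝ[X]}
    (hW : ∀ x : ℝ, q.eval x * (derivative p).eval x - (derivative q).eval x * p.eval x ≠ 0)
    {x x' : ℝ} (hxx : x < x') (hx : p.eval x = 0) (hx' : p.eval x' = 0) :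
    ∃ y ∈ Set.Ioo x x', q.eval y = 0 := by
  by_contra hcon
  push Not at hcon
  have hqx : q.eval x ≠ 0 := by
    intro h
    apply hW x
    rw [h, hx]; ring
  have hqx' : q.eval x' ≠ 0 := by
    intro h
    apply hW x'
    rw [h, hx']; ring
  have hne : ∀ y ∈ Set.Icc x x', q.eval y ≠ 0 := by
    intro y hy
    rcases eq_or_lt_of_le hy.1 with h | h
    · rwa [← h]
    · rcases eq_or_lt_of_le hy.2 with h' | h'
      · rwa [h']
      · exact hcon y ⟨h, h'⟩
  have hcont : ContinuousOn (fun y => p.eval y / q.eval y) (Set.Icc x x') :=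
    p.continuous.continuousOn.div q.continuous.continuousOn hne
  obtain ⟨z, hz, hz0⟩ := exists_hasDerivAt_eq_zero (f := fun y => p.eval y / q.eval y)
    (f' := fun y => ((derivative p).eval y * q.eval y - p.eval y * (derivative q).eval y) /
      (q.eval y) ^ 2) hxx hcont (by simp [hx, hx']) (by
      intro y hy
      exact (p.hasDerivAt y).div (q.hasDerivAt y) (hne y ⟨hy.1.le, hy.2.le⟩))
  beta_reduce at hz0
  rw [div_eq_zero_iff] at hz0
  rcases hz0 with h | h
  · apply hW z
    linear_combination h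
  · exact hne z ⟨hz.1.le, hz.2.le⟩ (pow_eq_zero_iff (by norm_num) |>.1 h)

/-- The main real statement. -/
theorem interlace {ε : ℝ} {N k : ℕ} (HM : Many ε N k) :
    ∃ (q : ℕ → ℝ[X]) (t : ℕ → ℕ → ℝ),
      (∀ j, (q j).Monic ∧ (q j).natDegree = j ∧ (∀ a < j, Lf ε N k (q j) a = 0) ∧
        (q j).roots = (Multiset.range j).map (t j)) ∧
      (∀ j ν, ν < j → t j ν ∈ Set.Ioo (0 : ℝ) 1) ∧
      (∀ j ν, ν < j → t (j + 1) ν < t j ν ∧ t j ν < t (j + 1) (ν + 1)) := by
  classical
  choose q hm hdeg hL hcard hroots using fun j => exists_monic HM (k := k) (ε := ε) (N := N) j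
  set t : ℕ → ℕ → ℝ := fun j ν =>
    if h : ν < j then (oddRoots (q j)).orderEmbOfFin (hcard j) ⟨ν, h⟩ else 0 with ht
  have htdef : ∀ j ν (h : ν < j), t j ν = (oddRoots (q j)).orderEmbOfFin (hcard j) ⟨ν, h⟩ := by
    intro j ν h
    rw [ht]; simp only []; rw [dif_pos h]
  have htmem : ∀ j ν, ν < j → t j ν ∈ oddRoots (q j) := by
    intro j ν h
    rw [htdef j ν h]
    exact Finset.orderEmbOfFin_mem _ _ _
  refine ⟨q, t, ?_, ?_, ?_⟩
  · intro j
    refine ⟨hm j, hdeg j, hL j, ?_⟩
    rw [hroots j]
    have hinj : Set.InjOn (t j) (Finset.range j : Set ℕ) := by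
      intro a ha b hb hab
      have ha' := Finset.mem_range.1 (Finset.mem_coe.1 ha)
      have hb' := Finset.mem_range.1 (Finset.mem_coe.1 hb)
      rw [htdef j a ha', htdef j b hb'] at hab
      have := ((oddRoots (q j)).orderEmbOfFin (hcard j)).injective hab
      exact congrArg Fin.val this
    have himg : (Finset.range j).image (t j) = oddRoots (q j) := by
      apply Finset.eq_of_subset_of_card_le
      · intro x hx
        obtain ⟨a, ha, rfl⟩ := Finset.mem_image.1 hx
        exact htmem j a (Finset.mem_range.1 ha)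
      · rw [Finset.card_image_of_injOn hinj, Finset.card_range, hcard j]
    rw [← himg, Finset.image_val_of_injOn hinj]
    rfl
  · intro j ν h
    exact ((mem_oddRoots (q j) (hm j).ne_zero _).1 (htmem j ν h)).1
  · intro j
    have hW := wronskian_ne HM j (q j) (q (j + 1)) (hdeg j) (hdeg (j + 1)) (hm j).ne_zero
      (hm (j + 1)).ne_zero (hL j) (hL (j + 1)) (hroots j)
    have hroot : ∀ (i : ℕ) (x : ℝ), x ∈ oddRoots (q i) ↔ (q i).eval x = 0 := by
      intro i x
      rw [← IsRoot, ← mem_roots (hm i).ne_zero, hroots i]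
      rfl
    have hstep : ∀ ν : Fin j, ∃ y ∈ Set.Ioo (t (j + 1) ν) (t (j + 1) (ν + 1)),
        (q j).eval y = 0 := by
      intro ν
      apply root_between hW
      · rw [htdef (j + 1) ν (by have := ν.2; omega), htdef (j + 1) (ν + 1) (by have := ν.2; omega)]
        apply ((oddRoots (q (j + 1))).orderEmbOfFin (hcard (j + 1))).strictMono
        rw [Fin.mk_lt_mk]; omega
      · rw [← hroot]; exact htmem _ _ (by have := ν.2; omega)
      · rw [← hroot]; exact htmem _ _ (by have := ν.2; omega)
    choose y hy hy0 using hstep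
    have hmono : StrictMono y := by
      intro a b hab
      have ha := a.2
      have hb := b.2
      have hab' : (a : ℕ) < b := hab
      have h1 := (hy a).2
      have h2 := (hy b).1
      have h3 : t (j + 1) (a + 1) ≤ t (j + 1) b := by
        rw [htdef (j + 1) (a + 1) (by omega), htdef (j + 1) b (by omega)]
        apply ((oddRoots (q (j + 1))).orderEmbOfFin (hcard (j + 1))).monotone
        rw [Fin.mk_le_mk]; omega
      linarith
    have huniq : y = (oddRoots (q j)).orderEmbOfFin (hcard j) :=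
      Finset.orderEmbOfFin_unique (hcard j) (fun x => (hroot j _).2 (hy0 x)) hmono
    intro ν hν
    have h1 : t j ν = y ⟨ν, hν⟩ := by rw [htdef j ν hν, huniq]
    rw [h1]
    exact ⟨(hy ⟨ν, hν⟩).1, (hy ⟨ν, hν⟩).2⟩

end Pool.Agent.H92Berg
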