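import Pool.Agent.H92Berg.Orth

set_option autoImplicit false
open Polynomial

namespace Pool.Agent.H92Berg

theorem exists_root (N : ℕ) (hN : 0 < N) (x : ℝ) (hx : x ∈ Set.Ioo (0 : ℝ) 1) :
    ∃ y ∈ Set.Ioo (0 : ℝ) 1, y ^ N = x := by
  refine ⟨x ^ ((N : ℝ)⁻¹), ⟨Real.rpow_pos_of_pos hx.1 _, ?_⟩, ?_⟩
  · apply Real.rpow_lt_one hx.1.le hx.2
    positivity
  · exact Real.rpow_inv_natCast_pow hx.1.le hN.ne'

theorem many_zeros (ε : ℝ) (N k : ℕ) (hN : 0 < N)
    (HC : ∀ (n : ℕ) (c : ℕ → ℝ), (∃ a < n, c a ≠ 0) →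
      W ε N k n c ≠ 0 ∧ Z (W ε N k n c) + 1 ≤ n)
    (q : ℝ[X]) (hq : q ≠ 0) (j : ℕ) (hL : ∀ a < j, Lf ε N k q a = 0) :
    j ≤ (oddRoots q).card := by
  classical
  by_contra hcon
  rw [not_le] at hcon
  have hO : ∀ x ∈ oddRoots q, x ∈ Set.Ioo (0 : ℝ) 1 := fun x hx => ((mem_oddRoots q hq x).1 hx).1
  have hy : ∀ x : ℝ, ∃ y : ℝ, x ∈ oddRoots q → y ∈ Set.Ioo (0 : ℝ) 1 ∧ y ^ N = x := by
    intro x
    by_cases hx : x ∈ oddRoots q
    · obtain ⟨y, hy1, hy2⟩ := exists_root N hN x (hO x hx)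
      exact ⟨y, fun _ => ⟨hy1, hy2⟩⟩
    · exact ⟨0, fun h => absurd h hx⟩
  choose y hy using hy
  set S : Finset ℝ := (oddRoots q).image (fun x => 1 - y x) with hS
  have hinj : Set.InjOn (fun x => 1 - y x) (oddRoots q : Set ℝ) := by
    intro x hx x' hx' hxx
    simp only [] at hxx
    have h1 : y x = y x' := by linarith
    rw [← (hy x hx).2, ← (hy x' hx').2, h1]
  have hScard : S.card = (oddRoots q).card := Finset.card_image_of_injOn hinj
  obtain ⟨c, hc, hcS⟩ := exists_coeffs ε N k (oddRoots q).card S hScard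
  obtain ⟨hW0, hWZ⟩ := HC _ c hc
  set Wp := W ε N k ((oddRoots q).card + 1) c with hWp
  obtain ⟨g, hg, hgne⟩ := factor_simple Wp hW0 S (by
    intro s hs
    refine ⟨?_, hcS s hs⟩
    rw [hS, Finset.mem_image] at hs
    obtain ⟨x, hx, rfl⟩ := hs
    have := (hy x hx).1
    exact ⟨by linarith [this.2], by linarith [this.1]⟩) (by rw [hScard]; omega)
  obtain ⟨u, h, hqf, hu0, hhne⟩ := factor_odd q hq
  obtain ⟨σ1, hσ1, hσ1'⟩ := const_sign h hhne
  obtain ⟨σ2, hσ2, hσ2'⟩ := const_sign g hgne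
  set F : ℝ → ℝ := fun t => t ^ k * q.eval (t ^ N) * Wp.eval (1 - t) with hF
  have hFint : ∫ t in (0 : ℝ)..1, F t = 0 := by
    rw [hF, hWp, Lf_sum]
    apply Finset.sum_eq_zero
    intro a ha
    rw [hL a (by have := Finset.mem_range.1 ha; omega), mul_zero]
  have hFcont : Continuous F := by
    have h2 : Continuous (fun t : ℝ => q.eval (t ^ N)) := q.continuous.comp (continuous_pow N)
    have h3 : Continuous (fun t : ℝ => Wp.eval (1 - t)) :=
      Wp.continuous.comp (continuous_const.sub continuous_id)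
    rw [hF]
    fun_prop
  set σ : ℝ := σ1 * σ2 * (-1) ^ (oddRoots q).card with hσ
  have hσ0 : σ ≠ 0 := by
    rw [hσ]; exact mul_ne_zero (mul_ne_zero hσ1 hσ2) (pow_ne_zero _ (by norm_num))
  have hFnonneg : ∀ t ∈ Set.Ioo (0 : ℝ) 1, 0 ≤ σ * F t := by
    intro t ht
    have htN : t ^ N ∈ Set.Ioo (0 : ℝ) 1 := ⟨pow_pos ht.1 N, pow_lt_one₀ ht.1.le ht.2 hN.ne'⟩
    have h1t : 1 - t ∈ Set.Ioo (0 : ℝ) 1 := ⟨by linarith [ht.2], by linarith [ht.1]⟩
    have e1 : q.eval (t ^ N) = (∏ x ∈ oddRoots q, (t ^ N - x)) * (u.eval (t ^ N)) ^ 2 *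
        h.eval (t ^ N) := by
      conv_lhs => rw [hqf]
      rw [eval_mul, eval_mul, eval_pow, eval_prod]
      simp only [eval_sub, eval_X, eval_C]
    have e2 : Wp.eval (1 - t) = (-1) ^ (oddRoots q).card * (∏ x ∈ oddRoots q, (t - y x)) *
        g.eval (1 - t) := by
      conv_lhs => rw [hg]
      rw [eval_mul, eval_prod, hS, Finset.prod_image hinj]
      congr 1
      rw [← Finset.prod_const, ← Finset.prod_mul_distrib]
      apply Finset.prod_congr rfl
      intro x _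
      simp only [eval_sub, eval_X, eval_C]
      ring
    have e3 : σ * F t = t ^ k * (∏ x ∈ oddRoots q, ((t ^ N - x) * (t - y x))) *
        (u.eval (t ^ N)) ^ 2 * (σ1 * h.eval (t ^ N)) * (σ2 * g.eval (1 - t)) := by
      have hsgn : ((-1 : ℝ) ^ (oddRoots q).card) * (-1) ^ (oddRoots q).card = 1 := by
        rw [← mul_pow]; norm_num
      rw [hF]
      simp only []
      rw [e1, e2, hσ, Finset.prod_mul_distrib]
      linear_combination (σ1 * σ2 * t ^ k * (∏ x ∈ oddRoots q, (t ^ N - x)) *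
        (u.eval (t ^ N)) ^ 2 * h.eval (t ^ N) * (∏ x ∈ oddRoots q, (t - y x)) *
        g.eval (1 - t)) * hsgn
    rw [e3]
    have p1 : 0 ≤ ∏ x ∈ oddRoots q, ((t ^ N - x) * (t - y x)) := by
      apply Finset.prod_nonneg
      intro x hx
      have := hy x hx
      have h3 := (sq_sign hN ht.1 this.1.1).1
      rw [this.2] at h3
      exact h3
    have p2 := (hσ1' _ htN).le
    have p3 := (hσ2' _ h1t).le
    have p4 : 0 ≤ t ^ k := pow_nonneg ht.1.le k
    positivity
  have hFnonneg' : ∀ t ∈ Set.Icc (0 : ℝ) 1, 0 ≤ σ * F t := by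
    have hclosed : IsClosed {t : ℝ | 0 ≤ σ * F t} :=
      isClosed_le continuous_const (continuous_const.mul hFcont)
    have hsub : closure (Set.Ioo (0 : ℝ) 1) ⊆ {t : ℝ | 0 ≤ σ * F t} :=
      closure_minimal hFnonneg hclosed
    rw [closure_Ioo (by norm_num)] at hsub
    exact hsub
  -- a point where `F` does not vanish
  have hpt : ∃ t ∈ Set.Ioo (0 : ℝ) 1, F t ≠ 0 := by
    have hXN : ∀ d : ℝ, (X ^ N : ℝ[X]) ≠ C d := by
      intro d hd
      have := congrArg natDegree hd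
      rw [natDegree_X_pow, natDegree_C] at this
      omega
    have hX1 : ∀ d : ℝ, (1 - X : ℝ[X]) ≠ C d := by
      intro d hd
      have h1 := congrArg (fun p : ℝ[X] => p.eval 0 - p.eval 1) hd
      simp at h1
    set P : ℝ[X] := X ^ k * q.comp (X ^ N) * Wp.comp (1 - X) with hP
    have hP0 : P ≠ 0 := by
      rw [hP]
      apply mul_ne_zero (mul_ne_zero (pow_ne_zero k X_ne_zero) _)
      · rw [Ne, comp_eq_zero_iff]
        rintro (h1 | ⟨_, h1⟩)
        · exact hW0 h1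
        · exact hX1 _ h1
      · rw [Ne, comp_eq_zero_iff]
        rintro (h1 | ⟨_, h1⟩)
        · exact hq h1
        · exact hXN _ h1
    have hPev : ∀ t, P.eval t = F t := by
      intro t
      rw [hP, hF]
      simp only [eval_mul, eval_pow, eval_X, eval_comp, eval_sub, eval_one]
    by_contra hall
    push Not at hall
    apply hP0
    apply eq_zero_of_infinite_isRoot
    apply (Set.Ioo_infinite (show (0 : ℝ) < 1 by norm_num)).mono
    intro t ht
    show P.eval t = 0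
    rw [hPev, hall t ht]
  obtain ⟨t0, ht0, hFt0⟩ := hpt
  have hpos : 0 < ∫ t in (0 : ℝ)..1, σ * F t := by
    apply intervalIntegral.integral_pos (by norm_num)
    · exact (continuous_const.mul hFcont).continuousOn
    · intro t ht
      exact hFnonneg' t ⟨ht.1.le, ht.2⟩
    · refine ⟨t0, ⟨ht0.1.le, ht0.2.le⟩, ?_⟩
      exact lt_of_le_of_ne (hFnonneg t0 ht0) (mul_ne_zero hσ0 hFt0).symm
  rw [intervalIntegral.integral_const_mul, hFint, mul_zero] at hpos
  exact lt_irrefl _ hpos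

end Pool.Agent.H92Berg
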