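import Pool.Agent.H92Berg.Pair
import Pool.Agent.H92Berg.Inter
import Pool.Agent.H92Berg.Zeros
import Pool.Agent.H92Berg.Cheb2

set_option autoImplicit false
open MeasureTheory Polynomial

namespace Pool.Agent.H92Berg

/-- the Bergman inner product on the open `N`-gon -/
noncomputable def bergman (N : ℕ) (p q : ℂ[X]) : ℂ :=
  ∫ z in G N, p.eval z * starRingEnd ℂ (q.eval z)

variable {N : ℕ}

theorem bergman_int (hN : 0 < N) (p q : ℂ[X]) :
    IntegrableOn (fun z => p.eval z * starRingEnd ℂ (q.eval z)) (G N) volume :=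
  integrable_G N hN _ (by
    apply Continuous.mul p.continuous
    exact Complex.continuous_conj.comp q.continuous)

theorem bergman_add_left (hN : 0 < N) (p p' q : ℂ[X]) :
    bergman N (p + p') q = bergman N p q + bergman N p' q := by
  unfold bergman
  rw [← integral_add (bergman_int hN p q) (bergman_int hN p' q)]
  congr 1; ext z; rw [eval_add]; ring

theorem bergman_smul_left (c : ℂ) (p q : ℂ[X]) :
    bergman N (C c * p) q = c * bergman N p q := by
  unfold bergman
  rw [← integral_const_mul]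
  congr 1; ext z; rw [eval_mul, eval_C]; ring

theorem bergman_conj (p q : ℂ[X]) : bergman N q p = starRingEnd ℂ (bergman N p q) := by
  unfold bergman
  rw [← integral_conj]
  congr 1; ext z; rw [map_mul, Complex.conj_conj]; ring

theorem bergman_add_right (hN : 0 < N) (p q q' : ℂ[X]) :
    bergman N p (q + q') = bergman N p q + bergman N p q' := by
  rw [bergman_conj, bergman_add_left hN, map_add, ← bergman_conj, ← bergman_conj]

theorem bergman_smul_right (c : ℂ) (p q : ℂ[X]) :
    bergman N p (C c * q) = starRingEnd ℂ c * bergman N p q := by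
  rw [bergman_conj, bergman_smul_left, map_mul, ← bergman_conj]

theorem bergman_zero_left (q : ℂ[X]) : bergman N 0 q = 0 := by
  unfold bergman; simp

theorem bergman_zero_right (q : ℂ[X]) : bergman N q 0 = 0 := by
  unfold bergman; simp

/-- real version of the norm -/
theorem bergman_self (p : ℂ[X]) :
    bergman N p p = ((∫ z in G N, ‖p.eval z‖ ^ 2 : ℝ) : ℂ) := by
  unfold bergman
  rw [← integral_complex_ofReal]
  congr 1
  ext z
  rw [Complex.mul_conj, Complex.normSq_eq_norm_sq]

theorem G_nonempty {ω ω' : ℂ} {ε : ℝ} (g : Good N ω ω' ε) : (G N).Nonempty := by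
  by_contra h
  rw [Set.not_nonempty_iff_eq_empty] at h
  obtain ⟨κ, hκ, hm⟩ := g.moment
  have h1 := hm 0 0
  rw [h] at h1
  simp only [pow_zero, mul_one, Measure.restrict_empty, integral_zero_measure, if_true] at h1
  rw [show B ε (0 + 1) = X from by rw [B_succ, A_zero, B_zero]; simp] at h1
  have h2 : ∫ t in (0 : ℝ)..1, (1 : ℝ) * eval (1 - t) (X : ℝ[X]) = 1 / 2 := by
    simp only [one_mul, eval_X]
    rw [intervalIntegral.integral_sub (by simp) (by simp)]
    simp
    norm_num
  rw [h2] at h1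
  have h3 : (0 : ℝ) = κ / (((0 : ℕ) : ℝ) + 1) * (1 / 2) := by exact_mod_cast h1
  norm_num at h3
  exact hκ.ne' h3

theorem bergman_pos {ω ω' : ℂ} {ε : ℝ} (g : Good N ω ω' ε) (p : ℂ[X]) (hp : p ≠ 0) :
    0 < ∫ z in G N, ‖p.eval z‖ ^ 2 := by
  have hopen : IsOpen (G N) := isOpen_interior
  have hc : Continuous (fun z : ℂ => ‖p.eval z‖ ^ 2) := by
    have := p.continuous
    fun_prop
  have hi : IntegrableOn (fun z : ℂ => ‖p.eval z‖ ^ 2) (G N) volume :=
    (hc.continuousOn.integrableOn_compact (hull_compact N g.hN)).mono_set interior_subset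
  have hne : (G N ∩ {z | p.eval z ≠ 0}).Nonempty := by
    by_contra hcon
    rw [Set.not_nonempty_iff_eq_empty] at hcon
    have hsub : G N ⊆ (p.roots.toFinset : Set ℂ) := by
      intro z hz
      by_contra hz2
      have : z ∈ G N ∩ {z | p.eval z ≠ 0} := by
        refine ⟨hz, fun h0 => hz2 ?_⟩
        simp only [Finset.mem_coe, Multiset.mem_toFinset]
        exact (mem_roots hp).2 h0
      rw [hcon] at this
      exact this
    have hfin : (G N).Finite := Set.Finite.subset (Finset.finite_toSet _) hsub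
    obtain ⟨z, hz⟩ := G_nonempty g
    have := hopen.measure_pos volume ⟨z, hz⟩
    rw [hfin.measure_zero] at this
    exact lt_irrefl _ this
  rw [setIntegral_pos_iff_support_of_nonneg_ae (Filter.Eventually.of_forall
    (fun z => by positivity)) hi]
  have h3 : IsOpen (Function.support (fun z : ℂ => ‖p.eval z‖ ^ 2) ∩ G N) :=
    (hc.isOpen_support).inter hopen
  obtain ⟨z, hz1, hz2⟩ := hne
  exact h3.measure_pos volume ⟨z, by simpa using hz2, hz1⟩

/-- `z^k q(z^N)` -/
noncomputable def PP (N k : ℕ) (q : ℝ[X]) : ℂ[X] :=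
  X ^ k * (q.map (algebraMap ℝ ℂ)).comp (X ^ N)

theorem PP_eval (k : ℕ) (q : ℝ[X]) (z : ℂ) :
    (PP N k q).eval z = ∑ i ∈ Finset.range (q.natDegree + 1), (q.coeff i : ℂ) * z ^ (i * N + k) := by
  unfold PP
  rw [eval_mul, eval_comp, eval_map, eval₂_eq_sum_range]
  simp only [eval_pow, eval_X, Complex.coe_algebraMap]
  rw [Finset.mul_sum]
  apply Finset.sum_congr rfl
  intro i _
  rw [pow_add, mul_comm i N, pow_mul]
  ring

theorem PP_pair {ω ω' : ℂ} {ε : ℝ} (g : Good N ω ω' ε) : ∃ κ : ℝ, 0 < κ ∧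
    ∀ (k : ℕ) (q : ℝ[X]) (b : ℕ), bergman N (PP N k q) (X ^ b) =
      if b % N = k % N then
        ((κ / ((b : ℝ) + 1) * ∫ t in (0 : ℝ)..1, t ^ k * q.eval (t ^ N) *
          (B ε (b + 1)).eval (1 - t) : ℝ) : ℂ) else 0 := by
  obtain ⟨κ, hκ, hm⟩ := g.moment
  refine ⟨κ, hκ, fun k q b => ?_⟩
  unfold bergman
  have h1 : ∀ z : ℂ, (PP N k q).eval z * starRingEnd ℂ ((X ^ b : ℂ[X]).eval z) =
      ∑ i ∈ Finset.range (q.natDegree + 1),
        (q.coeff i : ℂ) * (z ^ (i * N + k) * (starRingEnd ℂ z) ^ b) := by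
    intro z
    rw [PP_eval, Finset.sum_mul]
    apply Finset.sum_congr rfl
    intro i _
    rw [eval_pow, eval_X, map_pow]
    ring
  simp_rw [h1]
  rw [integral_finsetSum _ (fun i _ => integrable_G N g.hN _ (by fun_prop))]
  have h2 : ∀ i : ℕ, ∫ z in G N, (q.coeff i : ℂ) * (z ^ (i * N + k) * (starRingEnd ℂ z) ^ b) =
      if b % N = k % N then
        ((q.coeff i * (κ / ((b : ℝ) + 1) * ∫ t in (0 : ℝ)..1, t ^ (i * N + k) *
          (B ε (b + 1)).eval (1 - t)) : ℝ) : ℂ) else 0 := by
    intro i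
    rw [integral_const_mul, hm]
    have h3 : (i * N + k) % N = k % N := by
      rw [Nat.add_comm, Nat.add_mul_mod_self_right]
    rw [h3]
    by_cases h : b % N = k % N
    · rw [if_pos h, if_pos h.symm]
      push_cast
      ring
    · rw [if_neg h, if_neg (fun h' => h h'.symm), mul_zero]
  simp_rw [h2]
  split_ifs with h
  · rw [← Complex.ofReal_sum]
    congr 1
    have h4 : ∀ t : ℝ, t ^ k * q.eval (t ^ N) * (B ε (b + 1)).eval (1 - t) =
        ∑ i ∈ Finset.range (q.natDegree + 1),
          q.coeff i * (t ^ (i * N + k) * (B ε (b + 1)).eval (1 - t)) := by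
      intro t
      rw [eval_eq_sum_range, Finset.mul_sum, Finset.sum_mul]
      apply Finset.sum_congr rfl
      intro i _
      rw [pow_add, mul_comm i N, pow_mul]
      ring
    simp_rw [h4]
    rw [intervalIntegral.integral_finsetSum]
    · simp_rw [intervalIntegral.integral_const_mul]
      rw [Finset.mul_sum]
      apply Finset.sum_congr rfl
      intro i _
      ring
    · intro i _
      apply Continuous.intervalIntegrable
      have := (B ε (b + 1)).continuous
      fun_prop
  · simp

theorem PP_orth {ω ω' : ℂ} {ε : ℝ} (g : Good N ω ω' ε) (k : ℕ) (hk : k < N) (q : ℝ[X]) (j : ℕ)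
    (hL : ∀ a < j, Lf ε N k q a = 0) (b : ℕ) (hb : b < j * N + k) :
    bergman N (PP N k q) (X ^ b) = 0 := by
  obtain ⟨κ, hκ, h⟩ := PP_pair g
  rw [h]
  split_ifs with hbk
  · rw [Nat.mod_eq_of_lt hk] at hbk
    have hb2 : b = (b / N) * N + k := by
      conv_lhs => rw [← Nat.div_add_mod b N, hbk, mul_comm]
    have hlt : b / N < j := by
      by_contra hcon
      rw [not_lt] at hcon
      have := Nat.mul_le_mul_right N hcon
      omega
    have h2 := hL (b / N) hlt
    unfold Lf at h2
    rw [← hb2] at h2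
    rw [h2]
    simp
  · rfl

theorem PP_natDegree (hN : 0 < N) (k : ℕ) (q : ℝ[X]) (hq : q.Monic) :
    (PP N k q).natDegree = q.natDegree * N + k := by
  unfold PP
  have h1 : (q.map (algebraMap ℝ ℂ)).Monic := hq.map _
  have h2 : ((q.map (algebraMap ℝ ℂ)).comp (X ^ N)).natDegree = q.natDegree * N := by
    rw [natDegree_comp, natDegree_map, natDegree_X_pow]
  have h3 : ((q.map (algebraMap ℝ ℂ)).comp (X ^ N)).Monic := by
    apply h1.comp (monic_X_pow N)
    rw [natDegree_X_pow]; omega
  rw [(monic_X_pow k).natDegree_mul h3, natDegree_X_pow, h2]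
  ring

theorem PP_monic (hN : 0 < N) (k : ℕ) (q : ℝ[X]) (hq : q.Monic) : (PP N k q).Monic := by
  unfold PP
  have h1 : (q.map (algebraMap ℝ ℂ)).Monic := hq.map _
  have h3 : ((q.map (algebraMap ℝ ℂ)).comp (X ^ N)).Monic := by
    apply h1.comp (monic_X_pow N)
    rw [natDegree_X_pow]; omega
  exact (monic_X_pow k).mul h3

end Pool.Agent.H92Berg
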