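import Pool.Agent.H92Berg.Rolle

set_option autoImplicit false
open Polynomial

namespace Pool.Agent.H92Berg

/-- real polynomials `(A_M, B_M)` with `(1 + ω X)^M = A_M + ω B_M`, where `ω² = -1 - ε ω` -/
noncomputable def AB (ε : ℝ) : ℕ → ℝ[X] × ℝ[X]
  | 0 => (1, 0)
  | M + 1 => ((AB ε M).1 - X * (AB ε M).2, (AB ε M).2 + X * (AB ε M).1 - C ε * X * (AB ε M).2)

noncomputable def A (ε : ℝ) (M : ℕ) : ℝ[X] := (AB ε M).1
noncomputable def B (ε : ℝ) (M : ℕ) : ℝ[X] := (AB ε M).2

theorem A_zero (ε : ℝ) : A ε 0 = 1 := rfl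
theorem B_zero (ε : ℝ) : B ε 0 = 0 := rfl
theorem A_succ (ε : ℝ) (M : ℕ) : A ε (M + 1) = A ε M - X * B ε M := rfl
theorem B_succ (ε : ℝ) (M : ℕ) : B ε (M + 1) = B ε M + X * A ε M - C ε * X * B ε M := rfl

theorem deriv_AB (ε : ℝ) (M : ℕ) :
    derivative (A ε M) = - (C (M : ℝ) * B ε (M - 1)) ∧
    derivative (B ε M) = C (M : ℝ) * (A ε (M - 1) - C ε * B ε (M - 1)) := by
  induction M with
  | zero => simp [A_zero, B_zero]
  | succ M ih =>
    rw [Nat.add_sub_cancel]
    rcases M with _ | K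
    · constructor
      · rw [A_succ, A_zero, B_zero]; simp
      · rw [B_succ, A_zero, B_zero]; simp
    · rw [Nat.add_sub_cancel] at ih
      have e1 : (C (((K + 1 + 1 : ℕ)) : ℝ) : ℝ[X]) = C ((K + 1 : ℕ) : ℝ) + 1 := by
        rw [Nat.cast_add (K + 1) 1, C_add]; simp
      constructor
      · rw [A_succ ε (K + 1), derivative_sub, derivative_mul, derivative_X, ih.1, ih.2,
          B_succ ε K, e1]
        ring
      · rw [B_succ ε (K + 1), derivative_sub, derivative_add, derivative_mul, derivative_mul,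
          derivative_mul, derivative_X, derivative_C, ih.1, ih.2, e1]
        rw [A_succ ε K, B_succ ε K]
        ring

theorem A_one_eval (ε : ℝ) (M : ℕ) : (A ε (M + 1)).eval 1 = (A ε M).eval 1 - (B ε M).eval 1 := by
  rw [A_succ]; simp

theorem B_one_eval (ε : ℝ) (M : ℕ) :
    (B ε (M + 1)).eval 1 = (B ε M).eval 1 + (A ε M).eval 1 - ε * (B ε M).eval 1 := by
  rw [B_succ]; simp

theorem B_zero_eval (ε : ℝ) (M : ℕ) : (B ε M).eval 0 = 0 := by
  induction M with
  | zero => simp [B_zero]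
  | succ M ih => rw [B_succ]; simp [ih]

/-- N = 4 -/
theorem B4_one (a : ℕ) : (B 0 (4 * a)).eval 1 = 0 := by
  induction a with
  | zero => simp [B_zero]
  | succ a ih =>
    rw [show 4 * (a + 1) = 4 * a + 1 + 1 + 1 + 1 by ring]
    simp only [A_one_eval, B_one_eval]
    rw [ih]; ring

theorem A4_two (a : ℕ) : (A 0 (4 * a + 2)).eval 1 = 0 := by
  rw [show 4 * a + 2 = 4 * a + 1 + 1 by ring]
  simp only [A_one_eval, B_one_eval]
  rw [B4_one]; ring

/-- N = 3 -/
theorem B3_one (a : ℕ) : (B 1 (3 * a)).eval 1 = 0 := by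
  induction a with
  | zero => simp [B_zero]
  | succ a ih =>
    rw [show 3 * (a + 1) = 3 * a + 1 + 1 + 1 by ring]
    simp only [A_one_eval, B_one_eval]
    rw [ih]; ring

theorem AB3_one (a : ℕ) : (A 1 (3 * a + 1)).eval 1 = (B 1 (3 * a + 1)).eval 1 := by
  simp only [A_one_eval, B_one_eval]
  rw [B3_one]; ring

theorem A3_two (a : ℕ) : (A 1 (3 * a + 2)).eval 1 = 0 := by
  rw [show 3 * a + 2 = 3 * a + 1 + 1 by ring]
  simp only [A_one_eval, B_one_eval]
  rw [B3_one]; ring

/-- linear combinations of the weight polynomials -/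
noncomputable def W (ε : ℝ) (N k n : ℕ) (c : ℕ → ℝ) : ℝ[X] :=
  ∑ a ∈ Finset.range n, C (c a) * B ε (a * N + k + 1)

theorem e0_of (f : ℝ[X]) (h : f.eval 0 = 0) : e0 f = 1 := by unfold e0; rw [if_pos h]
theorem e1_of (f : ℝ[X]) (h : f.eval 1 = 0) : e1 f = 1 := by unfold e1; rw [if_pos h]

/-- chain for N = 4 -/
theorem chain4 (f : ℝ[X]) (h4 : derivative (derivative (derivative (derivative f))) ≠ 0)
    (h0 : f.eval 0 = 0) (h2 : (derivative (derivative f)).eval 0 = 0)
    (h1 : f.eval 1 = 0 ∨ (derivative f).eval 1 = 0 ∨ (derivative (derivative f)).eval 1 = 0 ∨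
      (derivative (derivative (derivative f))).eval 1 = 0) :
    Z f ≤ Z (derivative (derivative (derivative (derivative f)))) + 1 := by
  have h3 : derivative (derivative (derivative f)) ≠ 0 :=
    ne_of_apply_ne derivative (by rwa [derivative_zero])
  have h22 : derivative (derivative f) ≠ 0 := ne_of_apply_ne derivative (by rwa [derivative_zero])
  have h11 : derivative f ≠ 0 := ne_of_apply_ne derivative (by rwa [derivative_zero])
  have r1 := rolleZ f h11
  have r2 := rolleZ _ h22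
  have r3 := rolleZ _ h3
  have r4 := rolleZ _ h4
  rw [e0_of f h0] at r1
  rw [e0_of _ h2] at r3
  rcases h1 with h | h | h | h
  · rw [e1_of _ h] at r1; omega
  · rw [e1_of _ h] at r2; omega
  · rw [e1_of _ h] at r3; omega
  · rw [e1_of _ h] at r4; omega

/-- chain for N = 3 -/
theorem chain3 (f : ℝ[X]) (h3 : derivative (derivative (derivative f)) ≠ 0)
    (h0 : f.eval 0 = 0)
    (h1 : f.eval 1 = 0 ∨ (derivative f).eval 1 = 0 ∨ (derivative (derivative f)).eval 1 = 0) :
    Z f ≤ Z (derivative (derivative (derivative f))) + 1 := by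
  have h22 : derivative (derivative f) ≠ 0 := ne_of_apply_ne derivative (by rwa [derivative_zero])
  have h11 : derivative f ≠ 0 := ne_of_apply_ne derivative (by rwa [derivative_zero])
  have r1 := rolleZ f h11
  have r2 := rolleZ _ h22
  have r3 := rolleZ _ h3
  rw [e0_of f h0] at r1
  rcases h1 with h | h | h
  · rw [e1_of _ h] at r1; omega
  · rw [e1_of _ h] at r2; omega
  · rw [e1_of _ h] at r3; omega

theorem derivA0 (M : ℕ) : derivative (A 0 M) = - (C (M : ℝ) * B 0 (M - 1)) := (deriv_AB 0 M).1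
theorem derivB0 (M : ℕ) : derivative (B 0 M) = C (M : ℝ) * A 0 (M - 1) := by
  rw [(deriv_AB 0 M).2]; simp

theorem derivA1 (M : ℕ) : derivative (A 1 M) = - (C (M : ℝ) * B 1 (M - 1)) := (deriv_AB 1 M).1
theorem derivB1 (M : ℕ) : derivative (B 1 M) = C (M : ℝ) * (A 1 (M - 1) - B 1 (M - 1)) := by
  rw [(deriv_AB 1 M).2]; simp

/-- the four derivatives for N = 4 -/
theorem dB0_2 (M : ℕ) : derivative (derivative (B 0 M)) =
    - (C ((M * (M - 1) : ℕ) : ℝ) * B 0 (M - 2)) := by
  rw [derivB0, derivative_mul, derivative_C, derivA0, Nat.sub_sub]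
  push_cast
  simp only [C_mul]
  ring

theorem dB0_3 (M : ℕ) : derivative (derivative (derivative (B 0 M))) =
    - (C ((M * (M - 1) * (M - 2) : ℕ) : ℝ) * A 0 (M - 3)) := by
  rw [dB0_2, derivative_neg, derivative_mul, derivative_C, derivB0, Nat.sub_sub]
  push_cast
  simp only [C_mul]
  ring

theorem dB0_4 (M : ℕ) : derivative (derivative (derivative (derivative (B 0 M)))) =
    C ((M * (M - 1) * (M - 2) * (M - 3) : ℕ) : ℝ) * B 0 (M - 4) := by
  rw [dB0_3, derivative_neg, derivative_mul, derivative_C, derivA0, Nat.sub_sub]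
  push_cast
  simp only [C_mul]
  ring

theorem dB1_2 (M : ℕ) : derivative (derivative (B 1 M)) =
    - (C ((M * (M - 1) : ℕ) : ℝ) * A 1 (M - 2)) := by
  rw [derivB1, derivative_mul, derivative_C, derivative_sub, derivA1, derivB1, Nat.sub_sub]
  push_cast
  simp only [C_mul]
  ring

theorem dB1_3 (M : ℕ) : derivative (derivative (derivative (B 1 M))) =
    C ((M * (M - 1) * (M - 2) : ℕ) : ℝ) * B 1 (M - 3) := by
  rw [dB1_2, derivative_neg, derivative_mul, derivative_C, derivA1, Nat.sub_sub]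
  push_cast
  simp only [C_mul]
  ring

end Pool.Agent.H92Berg
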