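import Pool.Agent.H92Berg.Area

set_option autoImplicit false
open MeasureTheory

namespace Pool.Agent.H92Berg

theorem null_ker (φ : ℂ →ₗ[ℝ] ℝ) (hφ : φ ≠ 0) : ∀ᵐ z : ℂ, φ z ≠ 0 := by
  have h := Measure.addHaar_submodule (volume : Measure ℂ) (LinearMap.ker φ)
    (fun h => hφ (LinearMap.ker_eq_top.1 h))
  rw [ae_iff]
  convert h using 2
  ext z
  simp

theorem sum_ind (N : ℕ) (S : ℕ → Set ℂ) (K : Set ℂ) (z : ℂ) (f : ℂ → ℂ)
    (h1 : ∀ l < N, z ∈ S l → z ∈ K) (h2 : z ∈ K → ∃ l < N, z ∈ S l)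
    (h3 : ∀ l < N, ∀ m < N, z ∈ S l → z ∈ S m → l = m) :
    K.indicator f z = ∑ l ∈ Finset.range N, (S l).indicator f z := by
  by_cases hz : z ∈ K
  · obtain ⟨l, hl, hzl⟩ := h2 hz
    rw [Finset.sum_eq_single l]
    · rw [Set.indicator_of_mem hz, Set.indicator_of_mem hzl]
    · intro m hm hml
      rw [Set.indicator_of_notMem]
      intro hzm
      exact hml (h3 m (Finset.mem_range.1 hm) l hl hzm hzl)
    · intro h
      exact absurd (Finset.mem_range.2 hl) h
  · rw [Set.indicator_of_notMem hz]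
    symm
    apply Finset.sum_eq_zero
    intro l hl
    rw [Set.indicator_of_notMem]
    intro h
    exact hz (h1 l (Finset.mem_range.1 hl) h)

theorem int_decomp (N : ℕ) (ω ω' : ℂ) (hmul : ω * ω' = 1) (K : Set ℂ) (hK : MeasurableSet K)
    (hae : ∀ᵐ z : ℂ, ∀ f : ℂ → ℂ,
      K.indicator f z = ∑ l ∈ Finset.range N, (Cl ω ω' l).indicator f z)
    (f : ℂ → ℂ) (hf : Continuous f) :
    ∫ z in K, f z = ∑ l ∈ Finset.range N, ∫ z in Cl ω ω' l, f z := by
  rw [← integral_indicator hK]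
  have h1 : ∀ l, ∫ z in Cl ω ω' l, f z = ∫ z, (Cl ω ω' l).indicator f z := fun l => by
    rw [integral_indicator (Cl_compact ω ω' hmul l).measurableSet]
  simp_rw [h1]
  rw [← integral_finsetSum]
  · apply integral_congr_ae
    filter_upwards [hae] with z hz
    exact hz f
  · intro l _
    rw [integrable_indicator_iff (Cl_compact ω ω' hmul l).measurableSet]
    exact hf.continuousOn.integrableOn_compact (Cl_compact ω ω' hmul l)

theorem G_ae (N : ℕ) : (G N : Set ℂ) =ᵐ[volume] (convexHull ℝ {z : ℂ | z ^ N = 1} : Set ℂ) := by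
  unfold G
  exact interior_ae_eq_of_null_frontier (Convex.addHaar_frontier volume (convex_convexHull ℝ _))

/-- the convex hull contains the triangles -/
theorem Cl_sub (N : ℕ) (ω ω' : ℂ) (hmul : ω * ω' = 1) (hN : ω ^ N = 1)
    (h0 : (0 : ℂ) ∈ convexHull ℝ {z : ℂ | z ^ N = 1}) (l : ℕ) :
    Cl ω ω' l ⊆ convexHull ℝ {z : ℂ | z ^ N = 1} := by
  rintro z ⟨p, hp, hz⟩
  have hz2 : z = (1 - p.1 - p.2) • (0 : ℂ) + p.1 • (ω ^ l) + p.2 • (ω ^ (l + 1)) := by
    have : z = ω ^ l * (ω' ^ l * z) := by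
      rw [← mul_assoc, ← mul_pow, hmul, one_pow, one_mul]
    rw [this, hz]
    simp only [Complex.real_smul]
    push_cast
    ring
  have hv : ∀ m : ℕ, ω ^ m ∈ convexHull ℝ {z : ℂ | z ^ N = 1} := by
    intro m
    apply subset_convexHull
    show (ω ^ m) ^ N = 1
    rw [← pow_mul, mul_comm, pow_mul, hN, one_pow]
  rw [hz2]
  have hc := convex_convexHull ℝ {z : ℂ | z ^ N = 1}
  obtain ⟨ha, hb, hab⟩ := hp
  by_cases hs : p.1 + p.2 = 0
  · have h1 : p.1 = 0 := by linarith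
    have h2 : p.2 = 0 := by linarith
    rw [h1, h2]
    simpa using h0
  · have hpos : 0 < p.1 + p.2 := lt_of_le_of_ne (by linarith) (Ne.symm hs)
    have hm : (p.1 / (p.1 + p.2)) • (ω ^ l) + (p.2 / (p.1 + p.2)) • (ω ^ (l + 1)) ∈
        convexHull ℝ {z : ℂ | z ^ N = 1} := by
      apply hc (hv l) (hv (l + 1)) (by positivity) (by positivity)
      field_simp
    have := hc h0 hm (a := 1 - p.1 - p.2) (b := p.1 + p.2) (by linarith) (by linarith) (by ring)
    convert this using 1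
    rw [smul_add, smul_smul, smul_smul, mul_div_cancel₀ _ hs, mul_div_cancel₀ _ hs, add_assoc]

end Pool.Agent.H92Berg
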