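import Pool.Agent.H92Berg.Bergman

set_option autoImplicit false
open MeasureTheory Polynomial

namespace Pool.Agent.H92Berg

/-- Gram-Schmidt polynomials: orthonormal, exact degree, positive leading coefficients -/
structure IsBergmanOP (N : ℕ) (p : ℕ → ℂ[X]) : Prop where
  natDegree_eq : ∀ m, (p m).natDegree = m
  leading_pos : ∀ m, ∃ c : ℝ, 0 < c ∧ (p m).leadingCoeff = c
  orthonormal : ∀ m n, bergman N (p m) (p n) = if m = n then 1 else 0

variable {N : ℕ}

theorem bergman_sum_right (hN : 0 < N) (P : ℂ[X]) (s : Finset ℕ) (f : ℕ → ℂ[X]) :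
    bergman N P (∑ i ∈ s, f i) = ∑ i ∈ s, bergman N P (f i) := by
  classical
  induction s using Finset.induction_on with
  | empty => simp [bergman_zero_right]
  | insert a s ha ih => rw [Finset.sum_insert ha, Finset.sum_insert ha, bergman_add_right hN, ih]

theorem orth_of_pow (hN : 0 < N) (P : ℂ[X]) (m : ℕ) (h : ∀ b < m, bergman N P (X ^ b) = 0)
    (r : ℂ[X]) (hr : r.degree < m) : bergman N P r = 0 := by
  by_cases hr0 : r = 0
  · rw [hr0, bergman_zero_right]
  · have hn : r.natDegree < m := (natDegree_lt_iff_degree_lt hr0).2 hr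
    rw [as_sum_range_C_mul_X_pow' r hn, bergman_sum_right hN]
    apply Finset.sum_eq_zero
    intro i hi
    rw [bergman_smul_right, h i (Finset.mem_range.1 hi), mul_zero]

theorem OP_orth (hN : 0 < N) (p : ℕ → ℂ[X]) (hp : IsBergmanOP N p) (m : ℕ) :
    ∀ d ≤ m, ∀ r : ℂ[X], r.degree < d → bergman N (p m) r = 0 := by
  intro d
  induction d with
  | zero =>
    intro _ r hr
    have : r = 0 := by
      rw [← degree_eq_bot]
      simpa [Nat.WithBot.lt_zero_iff] using hr
    rw [this, bergman_zero_right]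
  | succ d ih =>
    intro hd r hr
    obtain ⟨c, hc, hlc⟩ := hp.leading_pos d
    have hcne : (c : ℂ) ≠ 0 := by exact_mod_cast hc.ne'
    set e : ℂ := r.coeff d / c with he
    have hpd0 : p d ≠ 0 := by
      intro h0
      rw [h0, leadingCoeff_zero] at hlc
      exact hcne hlc.symm
    have hdeg : (r - C e * p d).degree < d := by
      rw [degree_lt_iff_coeff_zero]
      intro n hn
      rw [coeff_sub, coeff_C_mul]
      rcases Nat.eq_or_lt_of_le hn with h | h
      · subst h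
        have h1 : (p d).coeff d = c := by
          rw [← hlc, leadingCoeff, hp.natDegree_eq]
        rw [h1, he, div_mul_cancel₀ _ hcne, sub_self]
      · rw [coeff_eq_zero_of_degree_lt (lt_of_lt_of_le hr (by exact_mod_cast h)),
          coeff_eq_zero_of_natDegree_lt (by rw [hp.natDegree_eq]; exact h)]
        simp
    have h1 := ih (by omega) _ hdeg
    have h2 : r = (r - C e * p d) + C e * p d := by ring
    rw [h2, bergman_add_right hN, h1, bergman_smul_right, hp.orthonormal, if_neg (by omega)]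
    simp

theorem OP_form {ω ω' : ℂ} {ε : ℝ} (g : Good N ω ω' ε) (p : ℕ → ℂ[X]) (hp : IsBergmanOP N p)
    (m : ℕ) (P : ℂ[X]) (hP : P.Monic) (hPd : P.natDegree = m)
    (hPo : ∀ b < m, bergman N P (X ^ b) = 0) :
    p m = C (((Real.sqrt (∫ z in G N, ‖P.eval z‖ ^ 2))⁻¹ : ℝ) : ℂ) * P := by
  have hN := g.hN
  obtain ⟨c, hc, hlc⟩ := hp.leading_pos m
  have hcne : (c : ℂ) ≠ 0 := by exact_mod_cast hc.ne'
  have hpm0 : p m ≠ 0 := by
    intro h0
    rw [h0, leadingCoeff_zero] at hlc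
    exact hcne hlc.symm
  have hdeg : (p m - C (c : ℂ) * P).degree < m := by
    rw [degree_lt_iff_coeff_zero]
    intro n hn
    rw [coeff_sub, coeff_C_mul]
    rcases Nat.eq_or_lt_of_le hn with h | h
    · subst h
      have h1 : (p m).coeff m = c := by
        rw [← hlc, leadingCoeff, hp.natDegree_eq]
      have h2 : P.coeff m = 1 := by
        have := hP.coeff_natDegree
        rwa [hPd] at this
      rw [h1, h2]
      ring
    · rw [coeff_eq_zero_of_natDegree_lt (by rw [hp.natDegree_eq]; exact h),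
        coeff_eq_zero_of_natDegree_lt (by rw [hPd]; exact h)]
      simp
  set r : ℂ[X] := p m - C (c : ℂ) * P with hr
  have h1 : bergman N (p m) r = 0 := OP_orth hN p hp m m le_rfl r hdeg
  have h2 : bergman N P r = 0 := orth_of_pow hN P m hPo r hdeg
  have h3 : bergman N r r = 0 := by
    have : r = p m + C (-(c : ℂ)) * P := by rw [hr, C_neg]; ring
    rw [show bergman N r r = bergman N (p m + C (-(c : ℂ)) * P) r from by rw [← this],
      bergman_add_left hN, bergman_smul_left, h1, h2]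
    simp
  have h4 : r = 0 := by
    by_contra hne
    have h5 := bergman_pos g r hne
    rw [bergman_self] at h3
    have h6 : (∫ z in G N, ‖r.eval z‖ ^ 2) = 0 := by exact_mod_cast h3
    rw [h6] at h5
    exact lt_irrefl _ h5
  have h5 : p m = C (c : ℂ) * P := by
    rw [hr] at h4
    exact sub_eq_zero.1 h4
  have h6 := hp.orthonormal m m
  rw [if_pos rfl, h5, bergman_smul_left, bergman_smul_right, bergman_self,
    Complex.conj_ofReal] at h6
  have h7 : c * (c * ∫ z in G N, ‖P.eval z‖ ^ 2) = 1 := by exact_mod_cast h6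
  set H := ∫ z in G N, ‖P.eval z‖ ^ 2 with hH
  have hHpos : 0 < H := bergman_pos g P hP.ne_zero
  have h8 : H = (c⁻¹) ^ 2 := by
    field_simp
    linarith
  rw [h5, h8, Real.sqrt_sq (by positivity), inv_inv]

theorem OP_exists {ω ω' : ℂ} {ε : ℝ} (g : Good N ω ω' ε) (P : ℕ → ℂ[X])
    (hP : ∀ m, (P m).Monic) (hPd : ∀ m, (P m).natDegree = m)
    (hPo : ∀ m, ∀ b < m, bergman N (P m) (X ^ b) = 0) :
    IsBergmanOP N (fun m => C (((Real.sqrt (∫ z in G N, ‖(P m).eval z‖ ^ 2))⁻¹ : ℝ) : ℂ) * P m) := by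
  have hpos : ∀ m, 0 < (Real.sqrt (∫ z in G N, ‖(P m).eval z‖ ^ 2))⁻¹ := fun m =>
    inv_pos.2 (Real.sqrt_pos.2 (bergman_pos g _ (hP m).ne_zero))
  have hne : ∀ m, (((Real.sqrt (∫ z in G N, ‖(P m).eval z‖ ^ 2))⁻¹ : ℝ) : ℂ) ≠ 0 := fun m => by
    exact_mod_cast (hpos m).ne'
  have hlow : ∀ m n, n < m → bergman N (P m) (P n) = 0 := by
    intro m n hnm
    apply orth_of_pow g.hN (P m) m (hPo m)
    rw [degree_eq_natDegree (hP n).ne_zero, hPd]
    exact_mod_cast hnm
  constructor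
  · intro m
    rw [natDegree_C_mul (hne m), hPd]
  · intro m
    refine ⟨_, hpos m, ?_⟩
    rw [leadingCoeff_mul, leadingCoeff_C, (hP m).leadingCoeff, mul_one]
  · intro m n
    rw [bergman_smul_left, bergman_smul_right, Complex.conj_ofReal]
    split_ifs with h
    · subst h
      rw [bergman_self]
      set H := ∫ z in G N, ‖(P m).eval z‖ ^ 2 with hH
      have hHpos : 0 < H := bergman_pos g _ (hP m).ne_zero
      have h1 : (Real.sqrt H)⁻¹ * ((Real.sqrt H)⁻¹ * H) = 1 := by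
        have h2 : Real.sqrt H * Real.sqrt H = H := Real.mul_self_sqrt hHpos.le
        have h3 : Real.sqrt H ≠ 0 := (Real.sqrt_pos.2 hHpos).ne'
        field_simp
        linarith
      exact_mod_cast h1
    · rcases lt_or_gt_of_ne h with h | h
      · rw [bergman_conj, hlow n m h]; simp
      · rw [hlow m n h]; simp

theorem main {ω ω' : ℂ} {ε : ℝ} (g : Good N ω ω' ε) (HM : ∀ k < N, Many ε N k) :
    (∃! p : ℕ → ℂ[X], IsBergmanOP N p) ∧
    ∀ p : ℕ → ℂ[X], IsBergmanOP N p → ∀ k < N, ∃ (q : ℕ → ℝ[X]) (t : ℕ → ℕ → ℝ),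
      (∀ j, p (j * N + k) = X ^ k * ((q j).map (algebraMap ℝ ℂ)).comp (X ^ N) ∧
        (q j).natDegree = j ∧ (q j).roots = (Multiset.range j).map (t j)) ∧
      (∀ j ν, ν < j → 0 < t j ν ∧ t j ν < 1) ∧
      (∀ j ν, 1 ≤ j → ν < j → 0 < t (j + 1) ν ∧ t (j + 1) ν < t j ν ∧
        t j ν < t (j + 1) (ν + 1) ∧ t (j + 1) (ν + 1) < 1) := by
  have hN := g.hN
  have hex := fun k (hk : k < N) => interlace (HM k hk)
  choose! q t hq ht1 ht2 using hex
  set P : ℕ → ℂ[X] := fun m => PP N (m % N) (q (m % N) (m / N)) with hPdef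
  have hmod : ∀ m, m % N < N := fun m => Nat.mod_lt m hN
  have hdm : ∀ m, (m / N) * N + m % N = m := fun m => by
    rw [mul_comm]; exact Nat.div_add_mod m N
  have hP : ∀ m, (P m).Monic := fun m => PP_monic hN _ _ (hq _ (hmod m) _).1
  have hPd : ∀ m, (P m).natDegree = m := fun m => by
    rw [hPdef]
    simp only []
    rw [PP_natDegree hN _ _ (hq _ (hmod m) _).1, (hq _ (hmod m) _).2.1, hdm]
  have hPo : ∀ m, ∀ b < m, bergman N (P m) (X ^ b) = 0 := fun m b hb => by
    refine PP_orth g (m % N) (hmod m) (q (m % N) (m / N)) (m / N)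
      (hq _ (hmod m) _).2.2.1 b ?_
    rw [hdm]; exact hb
  have hform : ∀ p : ℕ → ℂ[X], IsBergmanOP N p → ∀ m, p m =
      C (((Real.sqrt (∫ z in G N, ‖(P m).eval z‖ ^ 2))⁻¹ : ℝ) : ℂ) * P m :=
    fun p hp m => OP_form g p hp m (P m) (hP m) (hPd m) (hPo m)
  refine ⟨⟨_, OP_exists g P hP hPd hPo, fun p hp => funext (hform p hp)⟩, ?_⟩
  intro p hp k hk
  obtain ⟨c, hpos, hform'⟩ : ∃ c : ℕ → ℝ, (∀ m, 0 < c m) ∧ ∀ m, p m = C (c m : ℂ) * P m :=
    ⟨fun m => (Real.sqrt (∫ z in G N, ‖(P m).eval z‖ ^ 2))⁻¹, fun m =>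
    inv_pos.2 (Real.sqrt_pos.2 (bergman_pos g _ (hP m).ne_zero)), hform p hp⟩
  refine ⟨fun j => C (c (j * N + k)) * q k j,
    t k, ?_, fun j ν h => ht1 k hk j ν h, fun j ν _ h =>
      ⟨(ht1 k hk (j + 1) ν (by omega)).1, (ht2 k hk j ν h).1, (ht2 k hk j ν h).2,
      (ht1 k hk (j + 1) (ν + 1) (by omega)).2⟩⟩
  intro j
  refine ⟨?_, ?_, ?_⟩
  · have h1 : P (j * N + k) = X ^ k * ((q k j).map (algebraMap ℝ ℂ)).comp (X ^ N) := by
      rw [hPdef]
      simp only []
      have h2 : (j * N + k) % N = k := by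
        rw [Nat.add_comm, Nat.add_mul_mod_self_right, Nat.mod_eq_of_lt hk]
      have h3 : (j * N + k) / N = j := by
        rw [Nat.add_comm, Nat.add_mul_div_right _ _ hN, Nat.div_eq_of_lt hk, zero_add]
      rw [h2, h3]
      rfl
    rw [hform' (j * N + k), h1, Polynomial.map_mul, mul_comp, map_C, C_comp]
    simp only [Complex.coe_algebraMap]
    ring
  · rw [natDegree_C_mul (hpos _).ne', (hq k hk j).2.1]
  · rw [roots_C_mul _ (hpos _).ne', (hq k hk j).2.2.2]

theorem many3 (k : ℕ) (hk : k < 3) : Many 1 3 k := fun q hq j hL =>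
  many_zeros 1 3 k (by norm_num) (fun n c hc => cheb3 k hk n c hc) q hq j hL

theorem many4 (k : ℕ) (hk : k < 4) : Many 0 4 k := fun q hq j hL =>
  many_zeros 0 4 k (by norm_num) (fun n c hc => cheb4 k hk n c hc) q hq j hL

theorem final (N : ℕ) (hN : N = 3 ∨ N = 4) :
    (∃! p : ℕ → ℂ[X], IsBergmanOP N p) ∧
    ∀ p : ℕ → ℂ[X], IsBergmanOP N p → ∀ k < N, ∃ (q : ℕ → ℝ[X]) (t : ℕ → ℕ → ℝ),
      (∀ j, p (j * N + k) = X ^ k * ((q j).map (algebraMap ℝ ℂ)).comp (X ^ N) ∧
        (q j).natDegree = j ∧ (q j).roots = (Multiset.range j).map (t j)) ∧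
      (∀ j ν, ν < j → 0 < t j ν ∧ t j ν < 1) ∧
      (∀ j ν, 1 ≤ j → ν < j → 0 < t (j + 1) ν ∧ t (j + 1) ν < t j ν ∧
        t j ν < t (j + 1) (ν + 1) ∧ t (j + 1) (ν + 1) < 1) := by
  rcases hN with rfl | rfl
  · exact main good3 many3
  · exact main good4 many4

end Pool.Agent.H92Berg
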