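import Pool.Agent.H92Berg.Simplex
import Pool.Agent.H92Berg.Cheb

set_option autoImplicit false
open Polynomial MeasureTheory

namespace Pool.Agent.H92Berg

theorem AB_eval (ω : ℂ) (ε : ℝ) (hrel : ω ^ 2 = -1 - ε * ω) (M : ℕ) (s : ℝ) :
    (1 + ω * s) ^ M = (((A ε M).eval s : ℝ) : ℂ) + ω * (((B ε M).eval s : ℝ) : ℂ) := by
  induction M with
  | zero => rw [A_zero, B_zero]; simp
  | succ M ih =>
    rw [pow_succ, ih, A_succ, B_succ]
    simp only [eval_sub, eval_add, eval_mul, eval_X, eval_C]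
    push_cast
    linear_combination ((eval s (B ε M) : ℝ) * (s : ℂ)) * hrel

theorem moment (ω ω' : ℂ) (ε : ℝ) (hrel : ω ^ 2 = -1 - ε * ω) (hrel' : ω' ^ 2 = -1 - ε * ω')
    (hmul : ω * ω' = 1) (hne : ω' - ω ≠ 0) (a b : ℕ) (hab : ω ^ a * ω' ^ b = 1) :
    ∫ p in Sx, ((p.1 : ℂ) + p.2 * ω) ^ a * ((p.1 : ℂ) + p.2 * ω') ^ b =
      ((1 / ((b : ℝ) + 1) * ∫ t in (0 : ℝ)..1, t ^ a * (B ε (b + 1)).eval (1 - t) : ℝ) : ℂ) := by
  set z : ℝ × ℝ → ℂ := fun p => (p.1 : ℂ) + p.2 * ω with hz
  set z' : ℝ × ℝ → ℂ := fun p => (p.1 : ℂ) + p.2 * ω' with hz'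
  set S : ℝ × ℝ → ℂ := fun p => 1 + ω' * (1 - z p) with hS
  set H : ℝ × ℝ → ℂ := fun p => z p ^ a * (z' p ^ (b + 1) - S p ^ (b + 1)) with hH
  set Gx : ℝ × ℝ → ℂ := fun p => (a * z p ^ (a - 1) * 1) * (z' p ^ (b + 1) - S p ^ (b + 1)) +
    z p ^ a * (((b + 1 : ℕ) : ℂ) * z' p ^ b * 1 - ((b + 1 : ℕ) : ℂ) * S p ^ b * (-ω')) with hGx
  set Gy : ℝ × ℝ → ℂ := fun p => (a * z p ^ (a - 1) * ω) * (z' p ^ (b + 1) - S p ^ (b + 1)) +
    z p ^ a * (((b + 1 : ℕ) : ℂ) * z' p ^ b * ω' - ((b + 1 : ℕ) : ℂ) * S p ^ b * (-1)) with hGy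
  have hzc : Continuous z := by rw [hz]; fun_prop
  have hz'c : Continuous z' := by rw [hz']; fun_prop
  have hSc : Continuous S := by rw [hS]; fun_prop
  have hHc : Continuous H := by rw [hH]; fun_prop
  have hGxc : Continuous Gx := by rw [hGx]; fun_prop
  have hGyc : Continuous Gy := by rw [hGy]; fun_prop
  -- derivatives
  have dx : ∀ x y : ℝ, HasDerivAt (fun x : ℝ => H (x, y)) (Gx (x, y)) x := by
    intro x y
    have d1 : HasDerivAt (fun x : ℝ => z (x, y)) 1 x := by
      rw [hz]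
      have := (Complex.ofRealCLM.hasDerivAt (x := x)).add_const ((y : ℂ) * ω)
      simpa using this
    have d2 : HasDerivAt (fun x : ℝ => z' (x, y)) 1 x := by
      rw [hz']
      have := (Complex.ofRealCLM.hasDerivAt (x := x)).add_const ((y : ℂ) * ω')
      simpa using this
    have d3 : HasDerivAt (fun x : ℝ => S (x, y)) (-ω') x := by
      rw [hS]
      have := ((d1.const_sub 1).const_mul ω').const_add 1
      simpa using this
    exact (d1.pow a).mul ((d2.pow (b + 1)).sub (d3.pow (b + 1)))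
  have dy : ∀ x y : ℝ, HasDerivAt (fun y : ℝ => H (x, y)) (Gy (x, y)) y := by
    intro x y
    have d1 : HasDerivAt (fun y : ℝ => z (x, y)) ω y := by
      rw [hz]
      have := ((Complex.ofRealCLM.hasDerivAt (x := y)).mul_const ω).const_add (x : ℂ)
      simpa using this
    have d2 : HasDerivAt (fun y : ℝ => z' (x, y)) ω' y := by
      rw [hz']
      have := ((Complex.ofRealCLM.hasDerivAt (x := y)).mul_const ω').const_add (x : ℂ)
      simpa using this
    have d3 : HasDerivAt (fun y : ℝ => S (x, y)) (-1) y := by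
      rw [hS]
      have h1 := ((d1.const_sub 1).const_mul ω').const_add 1
      have h2 : ω' * -ω = -1 := by linear_combination -hmul
      rw [h2] at h1
      exact h1
    exact (d1.pow a).mul ((d2.pow (b + 1)).sub (d3.pow (b + 1)))
  -- vanishing on the hypotenuse
  have hyp : ∀ x y : ℝ, x + y = 1 → H (x, y) = 0 := by
    intro x y hxy
    have h1 : S (x, y) = z' (x, y) := by
      rw [hS, hz']
      simp only []
      rw [hz]
      have hx : (x : ℂ) = 1 - y := by
        have : x = 1 - y := by linarith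
        rw [this]; push_cast; ring
      simp only [hx]
      linear_combination (-(y : ℂ)) * hmul
    rw [hH]
    simp only []
    rw [h1, sub_self, mul_zero]
  have Ix : ∫ p in Sx, Gx p = - ∫ y in (0 : ℝ)..1, H (0, y) := by
    rw [simplex_int2 Gx hGxc, ← intervalIntegral.integral_neg]
    apply intervalIntegral.integral_congr
    intro y _
    simp only []
    rw [intervalIntegral.integral_eq_sub_of_hasDerivAt (f := fun x => H (x, y))
      (fun x _ => dx x y) ((hGxc.comp (by fun_prop)).intervalIntegrable _ _),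
      hyp (1 - y) y (by ring), zero_sub]
  have Iy : ∫ p in Sx, Gy p = - ∫ x in (0 : ℝ)..1, H (x, 0) := by
    rw [simplex_int1 Gy hGyc, ← intervalIntegral.integral_neg]
    apply intervalIntegral.integral_congr
    intro x _
    simp only []
    rw [intervalIntegral.integral_eq_sub_of_hasDerivAt (f := fun y => H (x, y))
      (fun y _ => dy x y) ((hGyc.comp (by fun_prop)).intervalIntegrable _ _),
      hyp x (1 - x) (by ring), zero_sub]
  -- combination
  have hcomb : ∀ p, ((b : ℂ) + 1) * (ω' - ω) * (z p ^ a * z' p ^ b) = -ω * Gx p + Gy p := by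
    intro p
    rw [hGx, hGy]
    simp only []
    push_cast
    linear_combination (((b : ℂ) + 1) * z p ^ a * S p ^ b) * hmul
  have hI : ((b : ℂ) + 1) * (ω' - ω) * ∫ p in Sx, z p ^ a * z' p ^ b =
      ω * (∫ y in (0 : ℝ)..1, H (0, y)) - ∫ x in (0 : ℝ)..1, H (x, 0) := by
    rw [← integral_const_mul]
    simp_rw [hcomb]
    rw [integral_add, integral_const_mul, Ix, Iy]
    · ring
    · exact ((continuous_const.mul hGxc).continuousOn.integrableOn_compact Sx_compact)
    · exact (hGyc.continuousOn.integrableOn_compact Sx_compact)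
  have hI2 : ω * (∫ y in (0 : ℝ)..1, H (0, y)) - ∫ x in (0 : ℝ)..1, H (x, 0) =
      (ω' - ω) * ((∫ t in (0 : ℝ)..1, t ^ a * (B ε (b + 1)).eval (1 - t) : ℝ) : ℂ) := by
    rw [← intervalIntegral.integral_const_mul, ← intervalIntegral.integral_sub,
      ← intervalIntegral.integral_ofReal, ← intervalIntegral.integral_const_mul]
    · apply intervalIntegral.integral_congr
      intro t _
      simp only []
      have e1 : H (0, t) = (t * ω) ^ a * ((t * ω') ^ (b + 1) - (ω' * (1 + ω * ((1 - t : ℝ) : ℂ))) ^ (b + 1)) := by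
        rw [hH, hS, hz, hz']
        simp only []
        have : 1 + ω' * (1 - ((0 : ℝ) + t * ω)) = ω' * (1 + ω * ((1 - t : ℝ) : ℂ)) := by
          push_cast
          linear_combination -hmul
        rw [this]; simp
      have e2 : H (t, 0) = t ^ a * (t ^ (b + 1) - (1 + ω' * ((1 - t : ℝ) : ℂ)) ^ (b + 1)) := by
        rw [hH, hS, hz, hz']
        simp
      rw [e1, e2, mul_pow ω' _ (b + 1), AB_eval ω ε hrel, AB_eval ω' ε hrel', mul_pow, mul_pow]
      push_cast
      generalize ((eval (1 - t) (A ε (b + 1)) : ℝ) : ℂ) = AA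
      generalize ((eval (1 - t) (B ε (b + 1)) : ℝ) : ℂ) = BB
      have hk : ω * (ω ^ a * ω' ^ (b + 1)) = 1 := by
        calc ω * (ω ^ a * ω' ^ (b + 1)) = (ω ^ a * ω' ^ b) * (ω * ω') := by ring
          _ = 1 := by rw [hab, hmul]; ring
      linear_combination ((t : ℂ) ^ a * ((t : ℂ) ^ (b + 1) - (AA + ω * BB))) * hk
    · exact ((continuous_const.mul (hHc.comp (by fun_prop))).intervalIntegrable _ _)
    · exact ((hHc.comp (by fun_prop)).intervalIntegrable _ _)
  rw [hI2] at hI
  have hb : ((b : ℂ) + 1) ≠ 0 := by exact_mod_cast Nat.succ_ne_zero b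
  have h5 : ((b : ℂ) + 1) * ∫ p in Sx, z p ^ a * z' p ^ b =
      ((∫ t in (0 : ℝ)..1, t ^ a * (B ε (b + 1)).eval (1 - t) : ℝ) : ℂ) := by
    apply mul_left_cancel₀ hne
    rw [← hI]; ring
  rw [Complex.ofReal_mul, ← h5]
  push_cast
  field_simp
  rfl

end Pool.Agent.H92Berg
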