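import Pool.Agent.H92Berg.Cheb2

set_option autoImplicit false
open Polynomial

namespace Pool.Agent.H92Berg

theorem const_sign (g : ℝ[X]) (h : ∀ x ∈ Set.Ioo (0 : ℝ) 1, g.eval x ≠ 0) :
    ∃ s : ℝ, s ≠ 0 ∧ ∀ x ∈ Set.Ioo (0 : ℝ) 1, 0 < s * g.eval x := by
  have hhalf : (1 / 2 : ℝ) ∈ Set.Ioo (0 : ℝ) 1 := ⟨by norm_num, by norm_num⟩
  refine ⟨g.eval (1 / 2), h _ hhalf, ?_⟩
  intro x hx
  by_contra hcon
  rw [not_lt] at hcon
  have hcont : ContinuousOn (fun y => g.eval (1 / 2) * g.eval y) (Set.Ioo (0 : ℝ) 1) :=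
    (continuous_const.mul g.continuous).continuousOn
  have hpos : 0 < g.eval (1 / 2) * g.eval (1 / 2) := mul_self_pos.2 (h _ hhalf)
  have himg := isPreconnected_Ioo.intermediate_value hx hhalf hcont
  obtain ⟨z, hz, hz0⟩ := himg ⟨hcon, hpos.le⟩
  simp only [] at hz0
  rcases mul_eq_zero.1 hz0 with h1 | h1
  · exact h _ hhalf h1
  · exact h z hz h1

theorem factor_simple (f : ℝ[X]) (hf : f ≠ 0) (S : Finset ℝ)
    (hS : ∀ s ∈ S, s ∈ Set.Ioo (0 : ℝ) 1 ∧ f.eval s = 0) (hZ : Z f ≤ S.card) :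
    ∃ g : ℝ[X], f = (∏ s ∈ S, (X - C s)) * g ∧ ∀ x ∈ Set.Ioo (0 : ℝ) 1, g.eval x ≠ 0 := by
  have h1 : S.val ≤ f.roots := by
    rw [Multiset.le_iff_subset S.nodup]
    intro s hs
    rw [mem_roots hf]
    exact (hS s hs).2
  obtain ⟨g, hg⟩ := (Multiset.prod_X_sub_C_dvd_iff_le_roots hf S.val).2 h1
  refine ⟨g, hg, ?_⟩
  intro x hx hx0
  have hg0 : g ≠ 0 := by
    rintro rfl
    rw [mul_zero] at hg; exact hf hg
  have h2 : f.roots = S.val + g.roots := by
    have h3 := roots_mul (p := (S.val.map fun a => X - C a).prod) (q := g) (by rw [← hg]; exact hf)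
    rw [← hg, roots_multiset_prod_X_sub_C] at h3
    exact h3
  have h3 : Z f = S.card + Multiset.card (g.roots.filter (fun x => x ∈ Set.Ioo (0 : ℝ) 1)) := by
    unfold Z
    rw [h2, Multiset.filter_add, Multiset.card_add]
    congr 1
    rw [Multiset.filter_eq_self.2]
    · rfl
    · intro s hs; exact (hS s hs).1
  have h4 : 0 < Multiset.card (g.roots.filter (fun x => x ∈ Set.Ioo (0 : ℝ) 1)) := by
    rw [Multiset.card_pos_iff_exists_mem]
    exact ⟨x, Multiset.mem_filter.2 ⟨(mem_roots hg0).2 hx0, hx⟩⟩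
  omega

/-- roots in `(0,1)` of odd multiplicity -/
noncomputable def oddRoots (q : ℝ[X]) : Finset ℝ := by
  classical
  exact q.roots.toFinset.filter (fun x => x ∈ Set.Ioo (0 : ℝ) 1 ∧ Odd (q.rootMultiplicity x))

theorem mem_oddRoots (q : ℝ[X]) (hq : q ≠ 0) (x : ℝ) :
    x ∈ oddRoots q ↔ x ∈ Set.Ioo (0 : ℝ) 1 ∧ Odd (q.rootMultiplicity x) := by
  classical
  unfold oddRoots
  rw [Finset.mem_filter, Multiset.mem_toFinset, mem_roots hq]
  constructor
  · exact fun h => h.2
  · intro h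
    refine ⟨?_, h⟩
    rw [← rootMultiplicity_pos hq]
    exact h.2.pos

theorem factor_odd (q : ℝ[X]) (hq : q ≠ 0) :
    ∃ u h : ℝ[X], q = (∏ x ∈ oddRoots q, (X - C x)) * u ^ 2 * h ∧ u ≠ 0 ∧
      ∀ x ∈ Set.Ioo (0 : ℝ) 1, h.eval x ≠ 0 := by
  classical
  set M : Multiset ℝ := q.roots.filter (fun x => x ∈ Set.Ioo (0 : ℝ) 1) with hM
  have h1 : M ≤ q.roots := Multiset.filter_le _ _
  obtain ⟨h, hh⟩ := (Multiset.prod_X_sub_C_dvd_iff_le_roots hq M).2 h1
  have hh0 : h ≠ 0 := by
    rintro rfl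
    rw [mul_zero] at hh; exact hq hh
  have h2 : q.roots = M + h.roots := by
    have h3 := roots_mul (p := (M.map fun a => X - C a).prod) (q := h) (by rw [← hh]; exact hq)
    rw [← hh, roots_multiset_prod_X_sub_C] at h3
    exact h3
  have hnoroot : ∀ x ∈ Set.Ioo (0 : ℝ) 1, h.eval x ≠ 0 := by
    intro x hx hx0
    have h3 : M = M + h.roots.filter (fun x => x ∈ Set.Ioo (0 : ℝ) 1) := by
      conv_lhs => rw [hM, h2, Multiset.filter_add]
      congr 1
      rw [Multiset.filter_eq_self]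
      intro a ha
      rw [hM] at ha
      exact (Multiset.mem_filter.1 ha).2
    have h4 : h.roots.filter (fun x => x ∈ Set.Ioo (0 : ℝ) 1) = 0 := by
      have := congrArg Multiset.card h3
      rw [Multiset.card_add] at this
      exact Multiset.card_eq_zero.1 (by omega)
    have h5 : x ∈ h.roots.filter (fun x => x ∈ Set.Ioo (0 : ℝ) 1) :=
      Multiset.mem_filter.2 ⟨(mem_roots hh0).2 hx0, hx⟩
    rw [h4] at h5
    exact Multiset.notMem_zero x h5
  have h6 : (M.map fun a => (X - C a : ℝ[X])).prod =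
      (∏ x ∈ oddRoots q, (X - C x)) * (∏ x ∈ M.toFinset, (X - C x) ^ (M.count x / 2)) ^ 2 := by
    rw [Finset.prod_multiset_map_count]
    have h7 : ∏ x ∈ oddRoots q, (X - C x : ℝ[X]) = ∏ x ∈ M.toFinset, (X - C x) ^ (M.count x % 2) := by
      have hset : oddRoots q = M.toFinset.filter (fun x => Odd (M.count x)) := by
        ext x
        rw [mem_oddRoots q hq, Finset.mem_filter, Multiset.mem_toFinset]
        constructor
        · rintro ⟨hx, hodd⟩
          have hc : M.count x = q.rootMultiplicity x := by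
            rw [hM, Multiset.count_filter, if_pos hx, count_roots]
          refine ⟨?_, by rw [hc]; exact hodd⟩
          rw [← Multiset.count_pos, hc]; exact hodd.pos
        · rintro ⟨hx, hodd⟩
          have hx' : x ∈ Set.Ioo (0 : ℝ) 1 := by
            rw [hM] at hx; exact (Multiset.mem_filter.1 hx).2
          have hc : M.count x = q.rootMultiplicity x := by
            rw [hM, Multiset.count_filter, if_pos hx', count_roots]
          exact ⟨hx', by rw [← hc]; exact hodd⟩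
      rw [hset, Finset.prod_filter]
      apply Finset.prod_congr rfl
      intro x _
      split_ifs with hodd
      · rw [Nat.odd_iff.1 hodd, pow_one]
      · rw [Nat.not_odd_iff.1 hodd, pow_zero]
    rw [h7, ← Finset.prod_pow, ← Finset.prod_mul_distrib]
    apply Finset.prod_congr rfl
    intro x _
    rw [← pow_mul, ← pow_add]
    congr 1
    omega
  refine ⟨∏ x ∈ M.toFinset, (X - C x) ^ (M.count x / 2), h, ?_, ?_, hnoroot⟩
  · rw [← h6]; exact hh
  · rw [Finset.prod_ne_zero_iff]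
    intro x _
    exact pow_ne_zero _ (X_sub_C_ne_zero x)

theorem exists_coeffs (ε : ℝ) (N k r : ℕ) (S : Finset ℝ) (hS : S.card = r) :
    ∃ c : ℕ → ℝ, (∃ a < r + 1, c a ≠ 0) ∧ ∀ s ∈ S, (W ε N k (r + 1) c).eval s = 0 := by
  let F : (Fin (r + 1) → ℝ) →ₗ[ℝ] (S → ℝ) :=
    { toFun := fun c s => ∑ a : Fin (r + 1), c a * (B ε (a * N + k + 1)).eval (s : ℝ)
      map_add' := by
        intro c d
        funext s
        simp only [Pi.add_apply, add_mul, Finset.sum_add_distrib]
      map_smul' := by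
        intro m c
        funext s
        simp only [Pi.smul_apply, smul_eq_mul, RingHom.id_apply, Finset.mul_sum, mul_assoc] }
  have hker : LinearMap.ker F ≠ ⊥ := by
    apply LinearMap.ker_ne_bot_of_finrank_lt
    rw [Module.finrank_fintype_fun_eq_card, Module.finrank_fintype_fun_eq_card]
    simp [hS]
  obtain ⟨c, hc, hc0⟩ := Submodule.exists_mem_ne_zero_of_ne_bot hker
  refine ⟨fun a => if h : a < r + 1 then c ⟨a, h⟩ else 0, ?_, ?_⟩
  · by_contra hcon
    push Not at hcon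
    apply hc0
    funext a
    have := hcon a a.2
    rw [dif_pos a.2] at this
    exact this
  · intro s hs
    have h1 : F c ⟨s, hs⟩ = 0 := by
      rw [LinearMap.mem_ker] at hc
      rw [hc]; rfl
    unfold W
    rw [eval_finsetSum, ← Fin.sum_univ_eq_sum_range
      (fun a => (C (if h : a < r + 1 then c ⟨a, h⟩ else 0) * B ε (a * N + k + 1)).eval s)]
    rw [← h1]
    apply Finset.sum_congr rfl
    intro a _
    rw [eval_mul, eval_C, dif_pos a.2]

/-- the orthogonality functional -/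
noncomputable def Lf (ε : ℝ) (N k : ℕ) (q : ℝ[X]) (a : ℕ) : ℝ :=
  ∫ t in (0 : ℝ)..1, t ^ k * q.eval (t ^ N) * (B ε (a * N + k + 1)).eval (1 - t)

theorem Lf_sum (ε : ℝ) (N k : ℕ) (q : ℝ[X]) (n : ℕ) (c : ℕ → ℝ) :
    ∫ t in (0 : ℝ)..1, t ^ k * q.eval (t ^ N) * (W ε N k n c).eval (1 - t) =
      ∑ a ∈ Finset.range n, c a * Lf ε N k q a := by
  unfold Lf W
  have h1 : ∀ t : ℝ, t ^ k * q.eval (t ^ N) *
      (∑ a ∈ Finset.range n, C (c a) * B ε (a * N + k + 1)).eval (1 - t) =
      ∑ a ∈ Finset.range n,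
        c a * (t ^ k * q.eval (t ^ N) * (B ε (a * N + k + 1)).eval (1 - t)) := by
    intro t
    rw [eval_finsetSum, Finset.mul_sum]
    apply Finset.sum_congr rfl
    intro a _
    rw [eval_mul, eval_C]; ring
  simp_rw [h1]
  rw [intervalIntegral.integral_finsetSum]
  · apply Finset.sum_congr rfl
    intro a _
    rw [intervalIntegral.integral_const_mul]
  · intro a _
    apply Continuous.intervalIntegrable
    have h2 : Continuous (fun t : ℝ => q.eval (t ^ N)) := q.continuous.comp (continuous_pow N)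
    have h3 : Continuous (fun t : ℝ => (B ε (a * N + k + 1)).eval (1 - t)) :=
      (B ε (a * N + k + 1)).continuous.comp (continuous_const.sub continuous_id)
    fun_prop

theorem sq_sign {N : ℕ} (hN : 0 < N) {t y : ℝ} (ht : 0 < t) (hy : 0 < y) :
    0 ≤ (t ^ N - y ^ N) * (t - y) ∧ ((t ^ N - y ^ N) * (t - y) = 0 → t = y) := by
  rcases lt_trichotomy t y with h | h | h
  · have h1 : t ^ N < y ^ N := pow_lt_pow_left₀ h ht.le hN.ne'
    have h2 : 0 < (t ^ N - y ^ N) * (t - y) := mul_pos_of_neg_of_neg (by linarith) (by linarith)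
    exact ⟨h2.le, fun h3 => absurd h3 h2.ne'⟩
  · rw [h]; simp
  · have h1 : y ^ N < t ^ N := pow_lt_pow_left₀ h hy.le hN.ne'
    have h2 : 0 < (t ^ N - y ^ N) * (t - y) := mul_pos (by linarith) (by linarith)
    exact ⟨h2.le, fun h3 => absurd h3 h2.ne'⟩

end Pool.Agent.H92Berg
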