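import Pool.Agent.H92Berg.Poly34

set_option autoImplicit false
open MeasureTheory

namespace Pool.Agent.H92Berg

structure Good (N : ℕ) (ω ω' : ℂ) (ε : ℝ) : Prop where
  hN : 0 < N
  im : 0 < ω.im
  star : (starRingEnd ℂ) ω = ω'
  mul : ω * ω' = 1
  norm : ‖ω'‖ = 1
  rel : ω ^ 2 = -1 - ε * ω
  rel' : ω' ^ 2 = -1 - ε * ω'
  pow : ω ^ N = 1
  prim : ∀ l < N, ω ^ l = 1 → l = 0
  ae : ∀ᵐ z : ℂ, ∀ f : ℂ → ℂ, (convexHull ℝ {z : ℂ | z ^ N = 1}).indicator f z =
    ∑ l ∈ Finset.range N, (Cl ω ω' l).indicator f z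

theorem good3 : Good 3 w3 w3' 1 where
  hN := by norm_num
  im := w3_im
  star := w3_star
  mul := w3_mul
  norm := w3_norm
  rel := by rw [w3_rel]; push_cast; ring
  rel' := by
    rw [w3_conj]; push_cast
    linear_combination w3_rel
  pow := w3_cube
  prim := by
    intro l hl h
    have him := w3_im
    interval_cases l
    · rfl
    · rw [pow_one] at h
      rw [h] at him
      simp at him
    · rw [w3_rel] at h
      have h2 : w3 = -2 := by linear_combination -h
      rw [h2] at him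
      simp at him
  ae := ae3

theorem good4 : Good 4 Complex.I (-Complex.I) 0 where
  hN := by norm_num
  im := I_im
  star := Complex.conj_I
  mul := I_mul
  norm := I_norm
  rel := by simp
  rel' := by simp
  pow := by norm_num
  prim := by
    intro l hl h
    have him := I_im
    interval_cases l
    · rfl
    · rw [pow_one] at h
      rw [h] at him
      simp at him
    · rw [Complex.I_sq] at h
      norm_num at h
    · rw [Complex.I_pow_three] at h
      have h2 : Complex.I = -1 := by linear_combination -h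
      rw [h2] at him
      simp at him
  ae := ae4

variable {N : ℕ} {ω ω' : ℂ} {ε : ℝ}

theorem hull_compact (N : ℕ) (hN : 0 < N) : IsCompact (convexHull ℝ {z : ℂ | z ^ N = 1}) := by
  apply Set.Finite.isCompact_convexHull
  have : {z : ℂ | z ^ N = 1} ⊆ ((Polynomial.nthRoots N (1 : ℂ)).toFinset : Set ℂ) := by
    intro z hz
    simp only [Finset.mem_coe, Multiset.mem_toFinset]
    exact (Polynomial.mem_nthRoots hN).2 hz
  exact Set.Finite.subset (Finset.finite_toSet _) this

theorem integrable_G (N : ℕ) (hN : 0 < N) (f : ℂ → ℂ) (hf : Continuous f) :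
    IntegrableOn f (G N) volume :=
  (hf.continuousOn.integrableOn_compact (hull_compact N hN)).mono_set interior_subset

theorem Good.int (g : Good N ω ω' ε) (f : ℂ → ℂ) (hf : Continuous f) :
    ∫ z in G N, f z = ∑ l ∈ Finset.range N, ∫ z in C0 ω, f (ω ^ l * z) := by
  rw [setIntegral_congr_set (G_ae N),
    int_decomp N ω ω' g.mul _ (hull_compact N g.hN).measurableSet g.ae f hf]
  apply Finset.sum_congr rfl
  intro l _
  exact int_Cl ω ω' g.mul g.norm l f

theorem Good.pow_mod (g : Good N ω ω' ε) (a : ℕ) : ω ^ a = ω ^ (a % N) := by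
  conv_lhs => rw [← Nat.div_add_mod a N, pow_add, pow_mul, g.pow, one_pow, one_mul]

theorem Good.ne_zero (g : Good N ω ω' ε) : ω ≠ 0 := by
  intro h
  have := g.mul
  rw [h, zero_mul] at this
  exact zero_ne_one this

/-- `ω^a ω'^b = 1` iff `a ≡ b mod N` -/
theorem Good.char (g : Good N ω ω' ε) (a b : ℕ) : ω ^ a * ω' ^ b = 1 ↔ a % N = b % N := by
  have h0 : ω ^ b * ω' ^ b = 1 := by rw [← mul_pow, g.mul, one_pow]
  have hne : ω' ^ b ≠ 0 := by
    intro h; rw [h, mul_zero] at h0; exact zero_ne_one h0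
  constructor
  · intro h
    have h1 : ω ^ a = ω ^ b := mul_right_cancel₀ hne (h.trans h0.symm)
    rw [g.pow_mod a, g.pow_mod b] at h1
    have ha := Nat.mod_lt a g.hN
    have hb := Nat.mod_lt b g.hN
    rcases le_total (a % N) (b % N) with hle | hle
    · obtain ⟨d, hd⟩ := Nat.exists_eq_add_of_le hle
      rw [hd, pow_add] at h1
      have h2 : ω ^ d = 1 := by
        have h3 : ω ^ (a % N) * ω ^ d = ω ^ (a % N) * 1 := by rw [mul_one]; exact h1.symm
        exact mul_left_cancel₀ (pow_ne_zero _ g.ne_zero) h3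
      have := g.prim d (by omega) h2
      omega
    · obtain ⟨d, hd⟩ := Nat.exists_eq_add_of_le hle
      rw [hd, pow_add] at h1
      have h2 : ω ^ d = 1 := by
        have h3 : ω ^ (b % N) * ω ^ d = ω ^ (b % N) * 1 := by rw [mul_one]; exact h1
        exact mul_left_cancel₀ (pow_ne_zero _ g.ne_zero) h3
      have := g.prim d (by omega) h2
      omega
  · intro h
    rw [g.pow_mod a, h, ← g.pow_mod b]
    exact h0

theorem Good.pow' (g : Good N ω ω' ε) : ω' ^ N = 1 := by
  have : ω ^ N * ω' ^ N = 1 := by rw [← mul_pow, g.mul, one_pow]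
  rwa [g.pow, one_mul] at this

/-- the moments of the polygon -/
theorem Good.moment (g : Good N ω ω' ε) : ∃ κ : ℝ, 0 < κ ∧ ∀ a b : ℕ,
    ∫ z in G N, z ^ a * (starRingEnd ℂ z) ^ b =
      if a % N = b % N then
        ((κ / ((b : ℝ) + 1) * ∫ t in (0 : ℝ)..1,
          t ^ a * (B ε (b + 1)).eval (1 - t) : ℝ) : ℂ) else 0 := by
  obtain ⟨κ, hκ, hcov⟩ := cov ω g.im
  refine ⟨N * κ, mul_pos (by exact_mod_cast g.hN) hκ, fun a b => ?_⟩
  rw [g.int _ (by fun_prop)]
  have h1 : ∀ l : ℕ, ∫ z in C0 ω, (ω ^ l * z) ^ a * (starRingEnd ℂ (ω ^ l * z)) ^ b =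
      (ω ^ a * ω' ^ b) ^ l * ∫ z in C0 ω, z ^ a * (starRingEnd ℂ z) ^ b := by
    intro l
    rw [← integral_const_mul]
    congr 1
    ext z
    rw [map_mul, map_pow, g.star]
    ring
  simp_rw [h1]
  rw [← Finset.sum_mul]
  split_ifs with hab
  · have h2 := (g.char a b).2 hab
    simp only [h2, one_pow, Finset.sum_const, Finset.card_range, nsmul_eq_mul, mul_one]
    rw [hcov]
    have h3 : ∫ p in Sx, ((p.1 : ℂ) + p.2 * ω) ^ a * (starRingEnd ℂ ((p.1 : ℂ) + p.2 * ω)) ^ b =
        ∫ p in Sx, ((p.1 : ℂ) + p.2 * ω) ^ a * ((p.1 : ℂ) + p.2 * ω') ^ b := by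
      congr 1
      ext p
      rw [map_add, map_mul, g.star, Complex.conj_ofReal, Complex.conj_ofReal]
    rw [h3, Pool.Agent.H92Berg.moment ω ω' ε g.rel g.rel' g.mul ?_ a b h2]
    · push_cast
      ring
    · intro h
      have h4 : ω' = ω := by linear_combination h
      have h5 := g.star
      rw [h4] at h5
      have h6 := Complex.conj_eq_iff_im.1 h5
      have := g.im
      rw [h6] at this
      exact lt_irrefl _ this
  · have h2 : ω ^ a * ω' ^ b ≠ 1 := fun h => hab ((g.char a b).1 h)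
    rw [geom_sum_eq h2]
    have h3 : (ω ^ a * ω' ^ b) ^ N = 1 := by
      rw [mul_pow, ← pow_mul, ← pow_mul, mul_comm a, mul_comm b, pow_mul, pow_mul, g.pow, g.pow',
        one_pow, one_pow, one_mul]
    rw [h3, sub_self, zero_div, zero_mul]

end Pool.Agent.H92Berg
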