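import Pool.Agent.H92Berg.Decomp

set_option autoImplicit false
open MeasureTheory

namespace Pool.Agent.H92Berg

/-- `e^{2πi/3}` -/
noncomputable def w3 : ℂ := ⟨-1/2, Real.sqrt 3 / 2⟩
noncomputable def w3' : ℂ := ⟨-1/2, -(Real.sqrt 3 / 2)⟩

theorem w3_rel : w3 ^ 2 = -1 - w3 := by
  have h3 : Real.sqrt 3 ^ 2 = 3 := Real.sq_sqrt (by norm_num)
  apply Complex.ext
  · simp [w3, pow_two]
    nlinarith
  · simp [w3, pow_two]
    ring

theorem w3_conj : w3' = -1 - w3 := by
  apply Complex.ext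
  · simp [w3, w3']; norm_num
  · simp [w3, w3']

theorem w3_star : (starRingEnd ℂ) w3 = w3' := by
  apply Complex.ext <;> simp [w3, w3']

theorem w3_mul : w3 * w3' = 1 := by
  rw [w3_conj]; linear_combination -w3_rel

theorem w3_cube : w3 ^ 3 = 1 := by
  linear_combination (w3 - 1) * w3_rel

theorem w3_im : 0 < w3.im := by
  simp [w3]

theorem w3_norm : ‖w3'‖ = 1 := by
  have h := w3_mul
  have h1 : ‖w3‖ = ‖w3'‖ := by rw [← w3_star]; simp
  have h2 : ‖w3‖ * ‖w3'‖ = 1 := by rw [← norm_mul, h, norm_one]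
  rw [h1] at h2
  nlinarith [norm_nonneg w3']

theorem mem_Cl (ω ω' : ℂ) (hω : 0 < ω.im) (l : ℕ) (z : ℂ) :
    z ∈ Cl ω ω' l ↔ 0 ≤ xc ω (ω' ^ l * z) ∧ 0 ≤ yc ω (ω' ^ l * z) ∧
      xc ω (ω' ^ l * z) + yc ω (ω' ^ l * z) ≤ 1 :=
  mem_C0 ω hω _

theorem yc_ne (ω : ℂ) (hω : 0 < ω.im) : yc ω ≠ 0 := by
  intro h
  have := (coord_unique ω hω 0 1).2
  rw [h] at this
  simp at this

theorem xc_ne (ω : ℂ) (hω : 0 < ω.im) : xc ω ≠ 0 := by
  intro h
  have := (coord_unique ω hω 1 0).1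
  rw [h] at this
  simp at this

theorem xyc_ne (ω : ℂ) (hω : 0 < ω.im) : xc ω - yc ω ≠ 0 := by
  intro h
  have h1 := (coord_unique ω hω 1 0).1
  have h2 := (coord_unique ω hω 1 0).2
  have h3 := congrArg (fun φ => φ (((1:ℝ) : ℂ) + ((0:ℝ):ℂ) * ω)) h
  simp only [LinearMap.sub_apply, h1, h2, LinearMap.zero_apply] at h3
  norm_num at h3

theorem roots3 (z : ℂ) (hz : z ^ 3 = 1) : z = 1 ∨ z = w3 ∨ z = w3' := by
  have h : (z - 1) * ((z - w3) * (z - w3')) = 0 := by
    rw [w3_conj]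
    linear_combination hz - (z - 1) * w3_rel
  rcases mul_eq_zero.1 h with h | h
  · left; linear_combination h
  · rcases mul_eq_zero.1 h with h | h
    · right; left; linear_combination h
    · right; right; linear_combination h

/-- half plane -/
theorem hull_sub (N : ℕ) (φ : ℂ →ₗ[ℝ] ℝ) (h : ∀ z : ℂ, z ^ N = 1 → φ z ≤ 1) (z : ℂ)
    (hz : z ∈ convexHull ℝ {z : ℂ | z ^ N = 1}) : φ z ≤ 1 := by
  have : convexHull ℝ {z : ℂ | z ^ N = 1} ⊆ {z | φ z ≤ 1} :=
    convexHull_min (fun z hz => h z hz) (convex_halfSpace_le φ.isLinear 1)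
  exact this hz

theorem zero_mem3 : (0 : ℂ) ∈ convexHull ℝ {z : ℂ | z ^ 3 = 1} := by
  have hc := convex_convexHull ℝ {z : ℂ | z ^ 3 = 1}
  have h1 : (1 : ℂ) ∈ convexHull ℝ {z : ℂ | z ^ 3 = 1} := subset_convexHull _ _ (by simp)
  have h2 : w3 ∈ convexHull ℝ {z : ℂ | z ^ 3 = 1} := subset_convexHull _ _ (by simp [w3_cube])
  have h3 : w3' ∈ convexHull ℝ {z : ℂ | z ^ 3 = 1} := by
    apply subset_convexHull
    show w3' ^ 3 = 1
    rw [w3_conj]
    linear_combination (-w3 - 2) * w3_rel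
  have h4 := hc h2 h3 (a := 1/2) (b := 1/2) (by norm_num) (by norm_num) (by norm_num)
  have h5 := hc h1 h4 (a := 1/3) (b := 2/3) (by norm_num) (by norm_num) (by norm_num)
  convert h5 using 1
  rw [w3_conj]
  apply Complex.ext
  · simp
    ring
  · simp

theorem ae3 : ∀ᵐ z : ℂ, ∀ f : ℂ → ℂ, (convexHull ℝ {z : ℂ | z ^ 3 = 1}).indicator f z =
    ∑ l ∈ Finset.range 3, (Cl w3 w3' l).indicator f z := by
  filter_upwards [null_ker _ (yc_ne w3 w3_im), null_ker _ (xc_ne w3 w3_im),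
    null_ker _ (xyc_ne w3 w3_im)] with z hy hx hxy f
  rw [LinearMap.sub_apply] at hxy
  have hr : ∀ z, xc w3 (w3' * z) = yc w3 z - 1 * xc w3 z ∧ yc w3 (w3' * z) = - xc w3 z :=
    fun z => coord_rot w3 w3' 1 w3_im w3_mul (by rw [w3_conj]; push_cast; ring) z
  have m0 : z ∈ Cl w3 w3' 0 ↔ 0 ≤ xc w3 z ∧ 0 ≤ yc w3 z ∧ xc w3 z + yc w3 z ≤ 1 := by
    rw [mem_Cl _ _ w3_im, pow_zero, one_mul]
  have m1 : z ∈ Cl w3 w3' 1 ↔ 0 ≤ yc w3 z - xc w3 z ∧ 0 ≤ -xc w3 z ∧
      yc w3 z - 2 * xc w3 z ≤ 1 := by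
    rw [mem_Cl _ _ w3_im, pow_one, (hr z).1, (hr z).2, one_mul]
    constructor
    · rintro ⟨a, b, c⟩; exact ⟨a, b, by linarith⟩
    · rintro ⟨a, b, c⟩; exact ⟨a, b, by linarith⟩
  have m2 : z ∈ Cl w3 w3' 2 ↔ 0 ≤ - yc w3 z ∧ 0 ≤ xc w3 z - yc w3 z ∧
      xc w3 z - 2 * yc w3 z ≤ 1 := by
    rw [mem_Cl _ _ w3_im, pow_two, mul_assoc, (hr (w3' * z)).1, (hr (w3' * z)).2, (hr z).1,
      (hr z).2, one_mul, one_mul]
    constructor
    · rintro ⟨a, b, c⟩; exact ⟨by linarith, by linarith, by linarith⟩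
    · rintro ⟨a, b, c⟩; exact ⟨by linarith, by linarith, by linarith⟩
  have c1 : xc w3 1 = 1 ∧ yc w3 1 = 0 := by
    have := coord_unique w3 w3_im 1 0
    simpa using this
  have cw : xc w3 w3 = 0 ∧ yc w3 w3 = 1 := by
    have := coord_unique w3 w3_im 0 1
    simpa using this
  have cw' : xc w3 w3' = -1 ∧ yc w3 w3' = -1 := by
    have := coord_unique w3 w3_im (-1) (-1)
    have h : w3' = ((-1 : ℝ) : ℂ) + ((-1 : ℝ) : ℂ) * w3 := by
      rw [w3_conj]; push_cast; ring
    rw [h]; exact this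
  have p1 : z ∈ convexHull ℝ {z : ℂ | z ^ 3 = 1} → xc w3 z + yc w3 z ≤ 1 := by
    refine hull_sub 3 (xc w3 + yc w3) ?_ z
    intro u hu
    rcases roots3 u hu with rfl | rfl | rfl <;>
      simp only [LinearMap.add_apply, c1, cw, cw'] <;> norm_num
  have p2 : z ∈ convexHull ℝ {z : ℂ | z ^ 3 = 1} → yc w3 z - 2 * xc w3 z ≤ 1 := by
    refine hull_sub 3 (yc w3 - (2 : ℝ) • xc w3) ?_ z
    intro u hu
    rcases roots3 u hu with rfl | rfl | rfl <;>
      simp only [LinearMap.sub_apply, LinearMap.smul_apply, c1, cw, cw', smul_eq_mul] <;> norm_num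
  have p3 : z ∈ convexHull ℝ {z : ℂ | z ^ 3 = 1} → xc w3 z - 2 * yc w3 z ≤ 1 := by
    refine hull_sub 3 (xc w3 - (2 : ℝ) • yc w3) ?_ z
    intro u hu
    rcases roots3 u hu with rfl | rfl | rfl <;>
      simp only [LinearMap.sub_apply, LinearMap.smul_apply, c1, cw, cw', smul_eq_mul] <;> norm_num
  apply sum_ind
  · intro l _ hz
    exact Cl_sub 3 w3 w3' w3_mul w3_cube zero_mem3 l hz
  · intro hz
    have q1 := p1 hz
    have q2 := p2 hz
    have q3 := p3 hz
    rcases lt_or_gt_of_ne hx with hx | hx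
    · rcases lt_or_gt_of_ne hy with hy | hy
      · by_cases h : xc w3 z < yc w3 z
        · exact ⟨1, by norm_num, m1.2 ⟨by linarith, by linarith, by linarith⟩⟩
        · exact ⟨2, by norm_num, m2.2 ⟨by linarith, by linarith, by linarith⟩⟩
      · exact ⟨1, by norm_num, m1.2 ⟨by linarith, by linarith, by linarith⟩⟩
    · rcases lt_or_gt_of_ne hy with hy | hy
      · exact ⟨2, by norm_num, m2.2 ⟨by linarith, by linarith, by linarith⟩⟩
      · exact ⟨0, by norm_num, m0.2 ⟨by linarith, by linarith, by linarith⟩⟩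
  · intro l hl m hm h1 h2
    interval_cases l <;> interval_cases m <;> first | rfl | (exfalso; simp only [m0, m1, m2] at h1 h2)
    · exact hx (by linarith [h1.1, h2.2.1])
    · exact hy (by linarith [h1.2.1, h2.1])
    · exact hx (by linarith [h1.2.1, h2.1])
    · exact hxy (by linarith [h1.1, h2.2.1])
    · exact hy (by linarith [h1.1, h2.2.1])
    · exact hxy (by linarith [h1.2.1, h2.1])

theorem I_norm : ‖-Complex.I‖ = 1 := by simp

theorem roots4 (z : ℂ) (hz : z ^ 4 = 1) : z = 1 ∨ z = Complex.I ∨ z = -1 ∨ z = -Complex.I := by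
  have h : (z - 1) * ((z - Complex.I) * ((z + 1) * (z + Complex.I))) = 0 := by
    linear_combination hz - (z ^ 2 - 1) * Complex.I_sq
  rcases mul_eq_zero.1 h with h | h
  · left; linear_combination h
  · rcases mul_eq_zero.1 h with h | h
    · right; left; linear_combination h
    · rcases mul_eq_zero.1 h with h | h
      · right; right; left; linear_combination h
      · right; right; right; linear_combination h

theorem zero_mem4 : (0 : ℂ) ∈ convexHull ℝ {z : ℂ | z ^ 4 = 1} := by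
  have hc := convex_convexHull ℝ {z : ℂ | z ^ 4 = 1}
  have h1 : (1 : ℂ) ∈ convexHull ℝ {z : ℂ | z ^ 4 = 1} := subset_convexHull _ _ (by simp)
  have h2 : (-1 : ℂ) ∈ convexHull ℝ {z : ℂ | z ^ 4 = 1} := subset_convexHull _ _ (by
    show (-1 : ℂ) ^ 4 = 1
    norm_num)
  have h4 := hc h1 h2 (a := 1/2) (b := 1/2) (by norm_num) (by norm_num) (by norm_num)
  convert h4 using 1
  simp

theorem I_im : 0 < Complex.I.im := by simp

theorem I_mul : Complex.I * (-Complex.I) = 1 := by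
  linear_combination -Complex.I_sq

theorem ae4 : ∀ᵐ z : ℂ, ∀ f : ℂ → ℂ, (convexHull ℝ {z : ℂ | z ^ 4 = 1}).indicator f z =
    ∑ l ∈ Finset.range 4, (Cl Complex.I (-Complex.I) l).indicator f z := by
  filter_upwards [null_ker _ (yc_ne Complex.I I_im), null_ker _ (xc_ne Complex.I I_im)]
    with z hy hx f
  have hr : ∀ z, xc Complex.I (-Complex.I * z) = yc Complex.I z ∧
      yc Complex.I (-Complex.I * z) = - xc Complex.I z := by
    intro z
    have := coord_rot Complex.I (-Complex.I) 0 I_im I_mul (by push_cast; ring) z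
    rw [zero_mul, sub_zero] at this
    exact this
  have m0 : z ∈ Cl Complex.I (-Complex.I) 0 ↔ 0 ≤ xc Complex.I z ∧ 0 ≤ yc Complex.I z ∧
      xc Complex.I z + yc Complex.I z ≤ 1 := by
    rw [mem_Cl _ _ I_im, pow_zero, one_mul]
  have m1 : z ∈ Cl Complex.I (-Complex.I) 1 ↔ 0 ≤ yc Complex.I z ∧ 0 ≤ -xc Complex.I z ∧
      yc Complex.I z + - xc Complex.I z ≤ 1 := by
    rw [mem_Cl _ _ I_im, pow_one, (hr z).1, (hr z).2]
  have m2 : z ∈ Cl Complex.I (-Complex.I) 2 ↔ 0 ≤ - xc Complex.I z ∧ 0 ≤ - yc Complex.I z ∧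
      - xc Complex.I z + - yc Complex.I z ≤ 1 := by
    rw [mem_Cl _ _ I_im, pow_two, mul_assoc, (hr (-Complex.I * z)).1, (hr (-Complex.I * z)).2,
      (hr z).1, (hr z).2]
  have m3 : z ∈ Cl Complex.I (-Complex.I) 3 ↔ 0 ≤ - yc Complex.I z ∧ 0 ≤ xc Complex.I z ∧
      - yc Complex.I z + xc Complex.I z ≤ 1 := by
    rw [mem_Cl _ _ I_im, pow_succ, pow_two, mul_assoc, mul_assoc,
      (hr (-Complex.I * (-Complex.I * z))).1, (hr (-Complex.I * (-Complex.I * z))).2,
      (hr (-Complex.I * z)).1, (hr (-Complex.I * z)).2, (hr z).1, (hr z).2, neg_neg]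
  have c1 : xc Complex.I 1 = 1 ∧ yc Complex.I 1 = 0 := by
    have := coord_unique Complex.I I_im 1 0
    simpa using this
  have cw : xc Complex.I Complex.I = 0 ∧ yc Complex.I Complex.I = 1 := by
    have := coord_unique Complex.I I_im 0 1
    simpa using this
  have p1 : z ∈ convexHull ℝ {z : ℂ | z ^ 4 = 1} → xc Complex.I z + yc Complex.I z ≤ 1 := by
    refine hull_sub 4 (xc Complex.I + yc Complex.I) ?_ z
    intro u hu
    rcases roots4 u hu with rfl | rfl | rfl | rfl <;>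
      simp only [LinearMap.add_apply, map_neg, c1, cw] <;> norm_num
  have p2 : z ∈ convexHull ℝ {z : ℂ | z ^ 4 = 1} → yc Complex.I z - xc Complex.I z ≤ 1 := by
    refine hull_sub 4 (yc Complex.I - xc Complex.I) ?_ z
    intro u hu
    rcases roots4 u hu with rfl | rfl | rfl | rfl <;>
      simp only [LinearMap.sub_apply, map_neg, c1, cw] <;> norm_num
  have p3 : z ∈ convexHull ℝ {z : ℂ | z ^ 4 = 1} → - xc Complex.I z - yc Complex.I z ≤ 1 := by
    refine hull_sub 4 (- xc Complex.I - yc Complex.I) ?_ z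
    intro u hu
    rcases roots4 u hu with rfl | rfl | rfl | rfl <;>
      simp only [LinearMap.sub_apply, LinearMap.neg_apply, map_neg, c1, cw] <;> norm_num
  have p4 : z ∈ convexHull ℝ {z : ℂ | z ^ 4 = 1} → xc Complex.I z - yc Complex.I z ≤ 1 := by
    refine hull_sub 4 (xc Complex.I - yc Complex.I) ?_ z
    intro u hu
    rcases roots4 u hu with rfl | rfl | rfl | rfl <;>
      simp only [LinearMap.sub_apply, map_neg, c1, cw] <;> norm_num
  apply sum_ind
  · intro l _ hz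
    exact Cl_sub 4 Complex.I (-Complex.I) I_mul (by norm_num) zero_mem4 l hz
  · intro hz
    have q1 := p1 hz
    have q2 := p2 hz
    have q3 := p3 hz
    have q4 := p4 hz
    rcases lt_or_gt_of_ne hx with hx | hx
    · rcases lt_or_gt_of_ne hy with hy | hy
      · exact ⟨2, by norm_num, m2.2 ⟨by linarith, by linarith, by linarith⟩⟩
      · exact ⟨1, by norm_num, m1.2 ⟨by linarith, by linarith, by linarith⟩⟩
    · rcases lt_or_gt_of_ne hy with hy | hy
      · exact ⟨3, by norm_num, m3.2 ⟨by linarith, by linarith, by linarith⟩⟩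
      · exact ⟨0, by norm_num, m0.2 ⟨by linarith, by linarith, by linarith⟩⟩
  · intro l hl m hm h1 h2
    have hxx : ∀ r, r = xc Complex.I z → 0 ≤ r → 0 ≤ -r → False := by
      intro r hr h1 h2; exact hx (by linarith)
    have hyy : ∀ r, r = yc Complex.I z → 0 ≤ r → 0 ≤ -r → False := by
      intro r hr h1 h2; exact hy (by linarith)
    interval_cases l <;> interval_cases m <;> first | rfl | (exfalso; simp only [m0, m1, m2, m3] at h1 h2)
    · exact hx (by linarith [h1.1, h2.2.1])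
    · exact hx (by linarith [h1.1, h2.1])
    · exact hy (by linarith [h1.2.1, h2.1])
    · exact hx (by linarith [h1.2.1, h2.1])
    · exact hy (by linarith [h1.1, h2.2.1])
    · exact hy (by linarith [h1.1, h2.1])
    · exact hx (by linarith [h1.1, h2.1])
    · exact hy (by linarith [h1.2.1, h2.1])
    · exact hx (by linarith [h1.1, h2.2.1])
    · exact hy (by linarith [h1.1, h2.2.1])
    · exact hy (by linarith [h1.1, h2.1])
    · exact hx (by linarith [h1.2.1, h2.1])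

end Pool.Agent.H92Berg
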