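import Mathlib

set_option autoImplicit false
open Polynomial

namespace Pool.Agent.H92Berg

/-- number of roots in `(0,1)` counted with multiplicity -/
noncomputable def Z (f : ℝ[X]) : ℕ :=
  Multiset.card (f.roots.filter (fun x => x ∈ Set.Ioo (0 : ℝ) 1))

/-- `1` if `f(0) = 0`, else `0` -/
noncomputable def e0 (f : ℝ[X]) : ℕ := if f.eval 0 = 0 then 1 else 0

/-- `1` if `f(1) = 0`, else `0` -/
noncomputable def e1 (f : ℝ[X]) : ℕ := if f.eval 1 = 0 then 1 else 0

theorem Z_eq_sum (f : ℝ[X]) (hf : f ≠ 0) (A : Finset ℝ) (hA : ∀ x ∈ A, x ∈ Set.Ioo (0 : ℝ) 1)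
    (hA' : ∀ x ∈ Set.Ioo (0 : ℝ) 1, f.IsRoot x → x ∈ A) :
    Z f = ∑ x ∈ A, f.rootMultiplicity x := by
  unfold Z
  rw [← Multiset.toFinset_sum_count_eq]
  have h1 : ∀ x ∈ A, f.rootMultiplicity x =
      Multiset.count x (f.roots.filter (fun x => x ∈ Set.Ioo (0 : ℝ) 1)) := by
    intro x hx
    rw [Multiset.count_filter, if_pos (hA x hx), count_roots]
  rw [Finset.sum_congr rfl h1]
  apply Finset.sum_subset
  · intro x hx
    rw [Multiset.mem_toFinset, Multiset.mem_filter, mem_roots hf] at hx
    exact hA' x hx.2 hx.1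
  · intro x _ hx
    rw [Multiset.mem_toFinset] at hx
    exact Multiset.count_eq_zero.2 hx

theorem rolleZ (f : ℝ[X]) (hf' : derivative f ≠ 0) :
    Z f + e0 f + e1 f ≤ Z (derivative f) + 1 := by
  classical
  have hf : f ≠ 0 := ne_of_apply_ne derivative (by rwa [derivative_zero])
  set s : Finset ℝ := f.roots.toFinset.filter (fun x => x ∈ Set.Icc (0 : ℝ) 1) with hs
  set so : Finset ℝ := f.roots.toFinset.filter (fun x => x ∈ Set.Ioo (0 : ℝ) 1) with hso
  set t : Finset ℝ := (derivative f).roots.toFinset.filter (fun x => x ∈ Set.Ioo (0 : ℝ) 1) with ht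
  have hmem_s : ∀ x, x ∈ s ↔ f.eval x = 0 ∧ 0 ≤ x ∧ x ≤ 1 := by
    intro x
    rw [hs, Finset.mem_filter, Multiset.mem_toFinset, mem_roots hf]
    rfl
  have hmem_so : ∀ x, x ∈ so ↔ f.eval x = 0 ∧ 0 < x ∧ x < 1 := by
    intro x
    rw [hso, Finset.mem_filter, Multiset.mem_toFinset, mem_roots hf]
    rfl
  have hmem_t : ∀ x, x ∈ t ↔ (derivative f).eval x = 0 ∧ 0 < x ∧ x < 1 := by
    intro x
    rw [ht, Finset.mem_filter, Multiset.mem_toFinset, mem_roots hf']
    rfl
  -- interleaving
  have h1 : s.card ≤ (t \ s).card + 1 := by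
    apply Finset.card_le_sdiff_of_interleaved
    intro x hx y hy hxy _
    rw [hmem_s] at hx hy
    obtain ⟨z, hz1, hz2⟩ := exists_deriv_eq_zero hxy f.continuousOn (hx.1.trans hy.1.symm)
    refine ⟨z, ?_, hz1⟩
    rw [hmem_t]
    refine ⟨?_, lt_of_le_of_lt hx.2.1 hz1.1, lt_of_lt_of_le hz1.2 hy.2.2⟩
    rw [← f.deriv]; exact hz2
  -- cardinality of s
  have h2 : so.card + e0 f + e1 f ≤ s.card := by
    set E : Finset ℝ := (if f.eval 0 = 0 then {0} else ∅) ∪ (if f.eval 1 = 0 then {1} else ∅)
      with hE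
    have hEcard : E.card = e0 f + e1 f := by
      rw [hE]
      unfold e0 e1
      by_cases h0 : f.eval 0 = 0 <;> by_cases h1 : f.eval 1 = 0 <;> simp [h0, h1]
    have hdisj : Disjoint so E := by
      rw [Finset.disjoint_left]
      intro x hx hxE
      rw [hmem_so] at hx
      rw [hE, Finset.mem_union] at hxE
      rcases hxE with h | h
      · split_ifs at h
        · rw [Finset.mem_singleton] at h; linarith
        · exact absurd h (Finset.notMem_empty x)
      · split_ifs at h
        · rw [Finset.mem_singleton] at h; linarith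
        · exact absurd h (Finset.notMem_empty x)
    have hsub : so ∪ E ⊆ s := by
      intro x hx
      rw [Finset.mem_union] at hx
      rw [hmem_s]
      rcases hx with h | h
      · rw [hmem_so] at h
        exact ⟨h.1, h.2.1.le, h.2.2.le⟩
      · rw [hE, Finset.mem_union] at h
        rcases h with h | h
        · split_ifs at h with h0
          · rw [Finset.mem_singleton] at h; rw [h]; exact ⟨h0, le_rfl, zero_le_one⟩
          · exact absurd h (Finset.notMem_empty x)
        · split_ifs at h with h0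
          · rw [Finset.mem_singleton] at h; rw [h]; exact ⟨h0, zero_le_one, le_rfl⟩
          · exact absurd h (Finset.notMem_empty x)
    have h3 := Finset.card_le_card hsub
    rw [Finset.card_union_of_disjoint hdisj, hEcard] at h3
    omega
  have h3 : Z f = ∑ x ∈ so, f.rootMultiplicity x := by
    apply Z_eq_sum f hf
    · intro x hx; exact ((hmem_so x).1 hx).2
    · intro x hx hr; exact (hmem_so x).2 ⟨hr, hx⟩
  have h4 : Z (derivative f) = ∑ x ∈ t ∪ so, (derivative f).rootMultiplicity x := by
    apply Z_eq_sum _ hf'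
    · intro x hx
      rw [Finset.mem_union] at hx
      rcases hx with h | h
      · exact ((hmem_t x).1 h).2
      · exact ((hmem_so x).1 h).2
    · intro x hx hr; exact Finset.mem_union_left _ ((hmem_t x).2 ⟨hr, hx⟩)
  have h5 : ∑ x ∈ (t \ s) ∪ so, (derivative f).rootMultiplicity x ≤ Z (derivative f) := by
    rw [h4]
    apply Finset.sum_le_sum_of_subset
    exact Finset.union_subset_union_left Finset.sdiff_subset
  have hdisj2 : Disjoint (t \ s) so := by
    rw [Finset.disjoint_left]
    intro x hx hxs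
    rw [Finset.mem_sdiff] at hx
    apply hx.2
    rw [hmem_so] at hxs
    rw [hmem_s]
    exact ⟨hxs.1, hxs.2.1.le, hxs.2.2.le⟩
  rw [Finset.sum_union hdisj2] at h5
  have h6 : (t \ s).card ≤ ∑ x ∈ t \ s, (derivative f).rootMultiplicity x := by
    rw [Finset.card_eq_sum_ones]
    apply Finset.sum_le_sum
    intro x hx
    have hx' := (hmem_t x).1 (Finset.mem_sdiff.1 hx).1
    exact (rootMultiplicity_pos hf').2 hx'.1
  have h7 : ∑ x ∈ so, f.rootMultiplicity x ≤
      ∑ x ∈ so, (derivative f).rootMultiplicity x + so.card := by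
    rw [Finset.card_eq_sum_ones, ← Finset.sum_add_distrib]
    apply Finset.sum_le_sum
    intro x _
    have := rootMultiplicity_sub_one_le_derivative_rootMultiplicity f x
    omega
  rw [h3]
  omega

end Pool.Agent.H92Berg
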