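import Mathlib

set_option autoImplicit false
open MeasureTheory

namespace Pool.Agent.H92Berg

/-- the standard simplex in the plane -/
def Sx : Set (ℝ × ℝ) := {p | 0 ≤ p.1 ∧ 0 ≤ p.2 ∧ p.1 + p.2 ≤ 1}

theorem Sx_closed : IsClosed Sx := by
  apply IsClosed.inter
  · exact isClosed_le continuous_const continuous_fst
  · apply IsClosed.inter
    · exact isClosed_le continuous_const continuous_snd
    · exact isClosed_le (continuous_fst.add continuous_snd) continuous_const

theorem Sx_compact : IsCompact Sx := by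
  apply (isCompact_Icc (a := ((0 : ℝ), (0 : ℝ))) (b := ((1 : ℝ), (1 : ℝ)))).of_isClosed_subset
    Sx_closed
  rintro ⟨x, y⟩ ⟨h1, h2, h3⟩
  simp only [] at h1 h2 h3
  exact ⟨⟨h1, h2⟩, ⟨by simp only []; linarith, by simp only []; linarith⟩⟩

theorem Sx_int (g : ℝ × ℝ → ℂ) (hg : Continuous g) :
    Integrable (Sx.indicator g) (volume.prod volume) := by
  rw [integrable_indicator_iff Sx_closed.measurableSet]
  exact hg.continuousOn.integrableOn_compact Sx_compact

theorem simplex_int1 (g : ℝ × ℝ → ℂ) (hg : Continuous g) :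
    ∫ p in Sx, g p = ∫ x in (0 : ℝ)..1, ∫ y in (0 : ℝ)..(1 - x), g (x, y) := by
  rw [← integral_indicator Sx_closed.measurableSet, Measure.volume_eq_prod,
    integral_prod _ (Sx_int g hg)]
  have h1 : ∀ x : ℝ, ∫ y : ℝ, Sx.indicator g (x, y) =
      (Set.Icc (0 : ℝ) 1).indicator (fun x => ∫ y in (0 : ℝ)..(1 - x), g (x, y)) x := by
    intro x
    by_cases hx : x ∈ Set.Icc (0 : ℝ) 1
    · rw [Set.indicator_of_mem hx, intervalIntegral.integral_of_le (by linarith [hx.2]),
        ← integral_Icc_eq_integral_Ioc, ← integral_indicator measurableSet_Icc]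
      congr 1
      funext y
      by_cases hy : y ∈ Set.Icc (0 : ℝ) (1 - x)
      · rw [Set.indicator_of_mem hy, Set.indicator_of_mem]
        exact ⟨hx.1, hy.1, by simp only []; linarith [hy.2]⟩
      · rw [Set.indicator_of_notMem hy, Set.indicator_of_notMem]
        rintro ⟨_, h2, h3⟩
        exact hy ⟨h2, by simp only [] at h3; linarith⟩
    · rw [Set.indicator_of_notMem hx]
      have h2 : ∀ y, Sx.indicator g (x, y) = 0 := by
        intro y
        rw [Set.indicator_of_notMem]
        rintro ⟨h2, h3, h4⟩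
        exact hx ⟨h2, by simp only [] at h2 h3 h4; linarith⟩
      simp [h2]
  simp_rw [h1]
  rw [integral_indicator measurableSet_Icc, integral_Icc_eq_integral_Ioc,
    intervalIntegral.integral_of_le (by norm_num)]

theorem simplex_int2 (g : ℝ × ℝ → ℂ) (hg : Continuous g) :
    ∫ p in Sx, g p = ∫ y in (0 : ℝ)..1, ∫ x in (0 : ℝ)..(1 - y), g (x, y) := by
  rw [← integral_indicator Sx_closed.measurableSet, Measure.volume_eq_prod,
    integral_prod_symm _ (Sx_int g hg)]
  have h1 : ∀ y : ℝ, ∫ x : ℝ, Sx.indicator g (x, y) =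
      (Set.Icc (0 : ℝ) 1).indicator (fun y => ∫ x in (0 : ℝ)..(1 - y), g (x, y)) y := by
    intro y
    by_cases hy : y ∈ Set.Icc (0 : ℝ) 1
    · rw [Set.indicator_of_mem hy, intervalIntegral.integral_of_le (by linarith [hy.2]),
        ← integral_Icc_eq_integral_Ioc, ← integral_indicator measurableSet_Icc]
      congr 1
      funext x
      by_cases hx : x ∈ Set.Icc (0 : ℝ) (1 - y)
      · rw [Set.indicator_of_mem hx, Set.indicator_of_mem]
        exact ⟨hx.1, hy.1, by simp only []; linarith [hx.2]⟩
      · rw [Set.indicator_of_notMem hx, Set.indicator_of_notMem]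
        rintro ⟨h2, _, h3⟩
        exact hx ⟨h2, by simp only [] at h3; linarith⟩
    · rw [Set.indicator_of_notMem hy]
      have h2 : ∀ x, Sx.indicator g (x, y) = 0 := by
        intro x
        rw [Set.indicator_of_notMem]
        rintro ⟨h2, h3, h4⟩
        exact hy ⟨h3, by simp only [] at h2 h3 h4; linarith⟩
      simp [h2]
  simp_rw [h1]
  rw [integral_indicator measurableSet_Icc, integral_Icc_eq_integral_Ioc,
    intervalIntegral.integral_of_le (by norm_num)]

end Pool.Agent.H92Berg
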